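import Mathlib

namespace N326.GS

open Finset

/-- The finite set `T` is contained in `[-N, N]` and shattered by the rows of `A ∩ [-N, N]^2`: every
subset of `T` is the trace on `T` of a row of `A` of height `y`, `|y| ≤ N`. -/
def Shattered (A : Set (ℤ × ℤ)) (N : ℕ) (T : Finset ℤ) : Prop :=
  (∀ x ∈ T, |x| ≤ (N : ℤ)) ∧
    ∀ S ⊆ T, ∃ y : ℤ, |y| ≤ (N : ℤ) ∧ ∀ x ∈ T, ((x, y) ∈ A ↔ x ∈ S)

/-- polynomial against exponential -/
theorem pow_le_two_pow (d l : ℕ) : (l + 1) ^ d ≤ (d.factorial * 2 ^ d) * 2 ^ l := by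
  calc (l + 1) ^ d ≤ (l + 1).ascFactorial d := Nat.pow_succ_le_ascFactorial _ _
    _ = d.factorial * (l + d).choose d := Nat.ascFactorial_eq_factorial_mul_choose _ _
    _ ≤ d.factorial * 2 ^ (l + d) := Nat.mul_le_mul_left _ (Nat.choose_le_two_pow _ _)
    _ = (d.factorial * 2 ^ d) * 2 ^ l := by rw [pow_add]; ring

/-- number of small subsets -/
theorem card_small (T : Finset ℤ) (d : ℕ) :
    (T.powerset.filter (fun U => U.card ≤ d)).card ≤ (T.card + 1) ^ d := by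
  have h : T.powerset.filter (fun U => U.card ≤ d) ⊆
      (range (d + 1)).biUnion (fun i => T.powersetCard i) := by
    intro U hU
    simp only [mem_filter, mem_powerset] at hU
    simp only [mem_biUnion, mem_range, mem_powersetCard]
    exact ⟨U.card, by omega, hU.1, rfl⟩
  refine (card_le_card h).trans (card_biUnion_le.trans ?_)
  rw [add_pow]
  refine sum_le_sum fun i hi => ?_
  rw [card_powersetCard]
  have h1 : 1 ≤ d.choose i := Nat.choose_pos (by simpa [Nat.lt_succ_iff] using hi)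
  calc T.card.choose i ≤ T.card ^ i := Nat.choose_le_pow _ _
    _ = T.card ^ i * 1 ^ (d - i) * 1 := by simp
    _ ≤ T.card ^ i * 1 ^ (d - i) * d.choose i := Nat.mul_le_mul_left _ h1

/-- `(1 - 1/Q)^Q ≤ 1/2` -/
theorem half_pow (Q : ℕ) (hQ : 1 ≤ Q) : 2 * (Q - 1) ^ Q ≤ Q ^ Q := by
  obtain ⟨q, rfl⟩ : ∃ q, Q = q + 1 := ⟨Q - 1, by omega⟩
  simp only [Nat.add_sub_cancel]
  -- binomial expansion: (q+1)^(q+1) ≥ q^(q+1) + (q+1) q^q
  have key : q ^ (q + 1) + (q + 1) * q ^ q ≤ (q + 1) ^ (q + 1) := by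
    rw [add_pow q 1 (q + 1), Finset.sum_range_succ, Finset.sum_range_succ]
    have e1 : q ^ (q + 1) * 1 ^ (q + 1 - (q + 1)) * (q + 1).choose (q + 1) = q ^ (q + 1) := by
      simp
    have e2 : q ^ q * 1 ^ (q + 1 - q) * (q + 1).choose q = (q + 1) * q ^ q := by
      rw [Nat.choose_succ_self_right]; simp; ring
    simp only [Nat.cast_id]
    rw [e1, e2]
    omega
  have : q ^ (q + 1) ≤ (q + 1) * q ^ q := by
    rw [pow_succ]; nlinarith [pow_pos (Nat.succ_pos q) q, Nat.zero_le (q ^ q)]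
  omega

theorem sample_pow (Q t : ℕ) (hQ : 1 ≤ Q) : 2 ^ t * (Q - 1) ^ (Q * t) ≤ Q ^ (Q * t) := by
  rw [pow_mul, pow_mul, ← mul_pow]
  exact Nat.pow_le_pow_left (half_pow Q hQ) t

end N326.GS
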