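import Pool.Agent.N326.GS.A

namespace N326.GS

open Finset

/-- Sampling: a family of `m` pairs of sets which differ in more than `n / Q` points of `L` is
separated by the points of a small set `T`. -/
theorem sample (L : Finset ℤ) (I : Finset (ℤ × ℤ)) (D : ℤ × ℤ → Finset ℤ) (Q t : ℕ) (hQ : 1 ≤ Q)
    (hL : 0 < L.card) (hD : ∀ p ∈ I, D p ⊆ L) (hfar : ∀ p ∈ I, L.card ≤ Q * (D p).card)
    (ht : I.card < 2 ^ t) :
    ∃ T : Finset ℤ, T ⊆ L ∧ T.card ≤ Q * t ∧ ∀ p ∈ I, ∃ x ∈ T, x ∈ D p := by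
  classical
  set s := Q * t with hs
  set n := L.card with hn
  let Ω : Finset (Fin s → ℤ) := Fintype.piFinset fun _ => L
  let B : ℤ × ℤ → Finset (Fin s → ℤ) := fun p => Fintype.piFinset fun _ => L \ D p
  have hΩ : Ω.card = n ^ s := Fintype.card_piFinset_const L s
  have hB : ∀ p ∈ I, 2 ^ t * (B p).card ≤ n ^ s := by
    intro p hp
    have h1 : (B p).card = (L \ D p).card ^ s := Fintype.card_piFinset_const _ s
    have h2 : (L \ D p).card = n - (D p).card := by
      rw [card_sdiff_of_subset (hD p hp)]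
    have h3 : Q * (L \ D p).card ≤ n * (Q - 1) := by
      rw [h2, Nat.mul_sub, Nat.mul_sub, mul_comm n Q, mul_one]
      exact Nat.sub_le_sub_left (hfar p hp) _
    have h4 : Q ^ s * (2 ^ t * (B p).card) ≤ Q ^ s * n ^ s := by
      calc Q ^ s * (2 ^ t * (B p).card) = 2 ^ t * (Q * (L \ D p).card) ^ s := by
            rw [h1, mul_pow]; ring
        _ ≤ 2 ^ t * (n * (Q - 1)) ^ s := Nat.mul_le_mul_left _ (Nat.pow_le_pow_left h3 s)
        _ = n ^ s * (2 ^ t * (Q - 1) ^ s) := by rw [mul_pow]; ring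
        _ ≤ n ^ s * Q ^ s := Nat.mul_le_mul_left _ (sample_pow Q t hQ)
        _ = Q ^ s * n ^ s := by ring
    exact Nat.le_of_mul_le_mul_left h4 (pow_pos (by omega) s)
  have hU : (I.biUnion B).card < Ω.card := by
    have h5 : 2 ^ t * (I.biUnion B).card ≤ I.card * n ^ s := by
      calc 2 ^ t * (I.biUnion B).card ≤ 2 ^ t * ∑ p ∈ I, (B p).card :=
            Nat.mul_le_mul_left _ card_biUnion_le
        _ = ∑ p ∈ I, 2 ^ t * (B p).card := by rw [mul_sum]
        _ ≤ ∑ _p ∈ I, n ^ s := sum_le_sum hB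
        _ = I.card * n ^ s := by rw [sum_const, smul_eq_mul]
    have h6 : I.card * n ^ s < 2 ^ t * n ^ s := Nat.mul_lt_mul_of_pos_right ht (pow_pos hL s)
    rw [hΩ]
    exact Nat.lt_of_mul_lt_mul_left (h5.trans_lt h6)
  obtain ⟨f, hf, hfU⟩ := exists_mem_notMem_of_card_lt_card hU
  have hfL : ∀ i, f i ∈ L := by simpa [Ω, Fintype.mem_piFinset] using hf
  refine ⟨univ.image f, ?_, ?_, ?_⟩
  · intro x hx
    obtain ⟨i, _, rfl⟩ := mem_image.mp hx
    exact hfL i
  · exact card_image_le.trans (by simp)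
  · intro p hp
    by_contra hcon
    push Not at hcon
    apply hfU
    rw [mem_biUnion]
    refine ⟨p, hp, ?_⟩
    rw [Fintype.mem_piFinset]
    intro i
    rw [mem_sdiff]
    exact ⟨hfL i, hcon (f i) (mem_image.mpr ⟨i, mem_univ _, rfl⟩)⟩

/-- A large class of rows whose pairwise differences are small. -/
theorem large_class (A : Set (ℤ × ℤ)) (d : ℕ) (L M : Finset ℤ)
    (hA : ∀ U ⊆ L, (∀ S ⊆ U, ∃ y ∈ M, ∀ x ∈ U, ((x, y) ∈ A ↔ x ∈ S)) → U.card ≤ d)
    (R : ℤ → Finset ℤ) (hR : ∀ y x, x ∈ R y ↔ x ∈ L ∧ (x, y) ∈ A) (hM : M.Nonempty)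
    (hL : 0 < L.card) (hML : M.card ≤ L.card)
    (Q t : ℕ) (hQ : 1 ≤ Q) (ht : L.card ^ 2 < 2 ^ t) :
    ∃ Y ⊆ M, Y.Nonempty ∧ M.card ≤ (Q * t + 1) ^ d * Y.card ∧
      ∀ y ∈ Y, ∀ y' ∈ Y, Q * (R y \ R y').card ≤ L.card := by
  classical
  let D : ℤ × ℤ → Finset ℤ := fun p => (R p.1 \ R p.2) ∪ (R p.2 \ R p.1)
  let I : Finset (ℤ × ℤ) := (M ×ˢ M).filter fun p => L.card ≤ Q * (D p).card
  have hRL : ∀ y, R y ⊆ L := fun y x hx => ((hR y x).mp hx).1
  have hI : I.card < 2 ^ t := by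
    refine lt_of_le_of_lt ?_ ht
    calc I.card ≤ (M ×ˢ M).card := card_filter_le _ _
      _ = M.card ^ 2 := by rw [card_product]; ring
      _ ≤ L.card ^ 2 := Nat.pow_le_pow_left hML 2
  obtain ⟨T, hTL, hTc, hT⟩ := sample L I D Q t hQ hL
    (fun p _ => union_subset (sdiff_subset.trans (hRL _)) (sdiff_subset.trans (hRL _)))
    (fun p hp => (mem_filter.mp hp).2) hI
  let F : Finset (Finset ℤ) := M.image fun y => R y ∩ T
  have hF : F.card ≤ (Q * t + 1) ^ d := by
    calc F.card ≤ F.shatterer.card := card_le_card_shatterer F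
      _ ≤ (T.powerset.filter (fun U => U.card ≤ d)).card := by
          refine card_le_card fun U hU => ?_
          rw [mem_shatterer] at hU
          have hUT : U ⊆ T := by
            obtain ⟨u, hu, hUu⟩ := hU (Subset.refl U)
            obtain ⟨y, _, rfl⟩ := mem_image.mp hu
            intro x hx
            have : x ∈ U ∩ (R y ∩ T) := by rw [hUu]; exact hx
            exact (mem_inter.mp (mem_inter.mp this).2).2
          rw [mem_filter, mem_powerset]
          refine ⟨hUT, hA U (hUT.trans hTL) fun S hS => ?_⟩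
          obtain ⟨u, hu, hUu⟩ := hU hS
          obtain ⟨y, hyM, rfl⟩ := mem_image.mp hu
          refine ⟨y, hyM, fun x hx => ?_⟩
          have hxT := hUT hx
          have hxL := hTL hxT
          rw [← hUu]
          simp only [mem_inter, hR]
          tauto
      _ ≤ (T.card + 1) ^ d := card_small T d
      _ ≤ (Q * t + 1) ^ d := Nat.pow_le_pow_left (by omega) d
  have hFne : F.Nonempty := hM.image _
  have hsum : M.card = ∑ b ∈ F, (M.filter fun y => R y ∩ T = b).card :=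
    card_eq_sum_card_fiberwise fun y hy => mem_image_of_mem _ hy
  have hle : ∑ _b ∈ F, M.card ≤ ∑ b ∈ F, (Q * t + 1) ^ d * (M.filter fun y => R y ∩ T = b).card := by
    rw [sum_const, smul_eq_mul, ← mul_sum, ← hsum]
    exact Nat.mul_le_mul_right _ hF
  obtain ⟨b, hb, hbM⟩ := exists_le_of_sum_le hFne hle
  obtain ⟨y₀, hy₀, hy₀b⟩ := mem_image.mp hb
  refine ⟨M.filter fun y => R y ∩ T = b, filter_subset _ _, ⟨y₀, mem_filter.mpr ⟨hy₀, hy₀b⟩⟩, hbM, ?_⟩
  intro y hy y' hy'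
  rw [mem_filter] at hy hy'
  by_contra hcon
  push Not at hcon
  have hmem : (y, y') ∈ I := by
    rw [mem_filter, mem_product]
    refine ⟨⟨hy.1, hy'.1⟩, hcon.le.trans (Nat.mul_le_mul_left _ (card_le_card ?_))⟩
    exact subset_union_left
  obtain ⟨x, hxT, hxD⟩ := hT _ hmem
  have h1 : x ∈ R y ↔ x ∈ R y' := by
    have e : R y ∩ T = R y' ∩ T := hy.2.trans hy'.2.symm
    have e2 : x ∈ R y ∩ T ↔ x ∈ R y' ∩ T := by rw [e]
    simpa [hxT] using e2
  simp only [D, mem_union, mem_sdiff] at hxD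
  tauto

end N326.GS
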