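import Pool.Agent.N326.GS.B

namespace N326.GS

open Finset
open scoped Combinatorics.Additive Pointwise

/-- `A` contains the four vertices of an axis-parallel square -/
def HasSquare (A : Set (ℤ × ℤ)) : Prop :=
  ∃ x y a : ℤ, a ≠ 0 ∧ (x, y) ∈ A ∧ (x + a, y) ∈ A ∧ (x, y + a) ∈ A ∧ (x + a, y + a) ∈ A

theorem energy_bound (A : Set (ℤ × ℤ)) (hsq : ¬ HasSquare A) (n Q : ℕ) (L Y : Finset ℤ)
    (R : ℤ → Finset ℤ) (hR : ∀ y x, x ∈ R y ↔ x ∈ L ∧ (x, y) ∈ A) (y₀ : ℤ) (hy₀ : y₀ ∈ Y)
    (hclose : ∀ y ∈ Y, ∀ y' ∈ Y, Q * (R y \ R y').card ≤ n) :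
    Q * E[R y₀, Y] ≤ Q * (R y₀).card * Y.card + 4 * n * Y.card ^ 2 := by
  classical
  set F := (((R y₀ ×ˢ R y₀) ×ˢ Y ×ˢ Y).filter fun x : (ℤ × ℤ) × ℤ × ℤ =>
    x.1.1 + x.2.1 = x.1.2 + x.2.2) with hF
  have hE : E[R y₀, Y] = F.card := rfl
  have hfib : F.card = ∑ p ∈ Y ×ˢ Y, (F.filter fun x => x.2 = p).card := by
    refine card_eq_sum_card_fiberwise fun x hx => ?_
    have hx' := (mem_filter.mp hx).1
    exact (mem_product.mp hx').2
  have hp : ∀ p ∈ Y ×ˢ Y, Q * (F.filter fun x => x.2 = p).card ≤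
      (if p.1 = p.2 then Q * (R y₀).card else 0) + 4 * n := by
    intro p hp
    rw [mem_product] at hp
    by_cases hpe : p.1 = p.2
    · rw [if_pos hpe]
      have : (F.filter fun x => x.2 = p).card ≤ (R y₀).card := by
        refine card_le_card_of_injOn (fun x => x.1.1) ?_ ?_
        · intro x hx
          have h1 := (mem_filter.mp (mem_coe.mp hx)).1
          have h2 := (mem_product.mp (mem_filter.mp h1).1).1
          exact mem_coe.mpr (mem_product.mp h2).1
        · intro x hx z hz hxz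
          have h1 := mem_filter.mp (mem_coe.mp hx)
          have h2 := mem_filter.mp (mem_coe.mp hz)
          have e1 := (mem_filter.mp h1.1).2
          have e2 := (mem_filter.mp h2.1).2
          rw [h1.2] at e1
          rw [h2.2] at e2
          simp only at hxz
          refine Prod.ext (Prod.ext hxz ?_) (h1.2.trans h2.2.symm)
          omega
      have := Nat.mul_le_mul_left Q this
      omega
    · rw [if_neg hpe, zero_add]
      set Z := (R y₀ \ R p.1) ∪ (R y₀ \ R p.2) with hZ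
      have hZc : Q * Z.card ≤ 2 * n := by
        have h1 := hclose y₀ hy₀ p.1 hp.1
        have h2 := hclose y₀ hy₀ p.2 hp.2
        have h3 : Z.card ≤ (R y₀ \ R p.1).card + (R y₀ \ R p.2).card := card_union_le _ _
        have h4 := Nat.mul_le_mul_left Q h3
        rw [Nat.mul_add] at h4
        omega
      have hsub : (F.filter fun x => x.2 = p) ⊆
          ((F.filter fun x => x.2 = p).filter fun x => x.1.1 ∈ Z) ∪
          ((F.filter fun x => x.2 = p).filter fun x => x.1.2 ∈ Z) := by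
        intro x hx
        rw [mem_union, mem_filter (s := F.filter fun x => x.2 = p),
          mem_filter (s := F.filter fun x => x.2 = p)]
        by_contra hcon
        have hx1 : x.1.1 ∉ Z := fun h => hcon (Or.inl ⟨hx, h⟩)
        have hx2 : x.1.2 ∉ Z := fun h => hcon (Or.inr ⟨hx, h⟩)
        have h1 := mem_filter.mp hx
        have e1 := (mem_filter.mp h1.1).2
        have h2 := (mem_product.mp (mem_filter.mp h1.1).1).1
        have h3 := mem_product.mp h2
        rw [h1.2] at e1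
        simp only [hZ, mem_union, mem_sdiff, not_or, not_and, not_not] at hx1 hx2
        have a1 := ((hR _ _).mp (hx1.1 h3.1)).2
        have a2 := ((hR _ _).mp (hx1.2 h3.1)).2
        have b1 := ((hR _ _).mp (hx2.1 h3.2)).2
        have b2 := ((hR _ _).mp (hx2.2 h3.2)).2
        apply hsq
        refine ⟨x.1.2, p.1, x.1.1 - x.1.2, ?_, b1, ?_, ?_, ?_⟩
        · intro h
          apply hpe
          omega
        · rw [show x.1.2 + (x.1.1 - x.1.2) = x.1.1 by ring]
          exact a1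
        · rw [show p.1 + (x.1.1 - x.1.2) = p.2 by omega]
          exact b2
        · rw [show x.1.2 + (x.1.1 - x.1.2) = x.1.1 by ring,
            show p.1 + (x.1.1 - x.1.2) = p.2 by omega]
          exact a2
      have hc1 : ((F.filter fun x => x.2 = p).filter fun x => x.1.1 ∈ Z).card ≤ Z.card := by
        refine card_le_card_of_injOn (fun x => x.1.1) ?_ ?_
        · intro x hx
          exact mem_coe.mpr (mem_filter.mp (mem_coe.mp hx)).2
        · intro x hx z hz hxz
          have h1 := mem_filter.mp (mem_filter.mp (mem_coe.mp hx)).1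
          have h2 := mem_filter.mp (mem_filter.mp (mem_coe.mp hz)).1
          have e1 := (mem_filter.mp h1.1).2
          have e2 := (mem_filter.mp h2.1).2
          rw [h1.2] at e1
          rw [h2.2] at e2
          simp only at hxz
          refine Prod.ext (Prod.ext hxz ?_) (h1.2.trans h2.2.symm)
          omega
      have hc2 : ((F.filter fun x => x.2 = p).filter fun x => x.1.2 ∈ Z).card ≤ Z.card := by
        refine card_le_card_of_injOn (fun x => x.1.2) ?_ ?_
        · intro x hx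
          exact mem_coe.mpr (mem_filter.mp (mem_coe.mp hx)).2
        · intro x hx z hz hxz
          have h1 := mem_filter.mp (mem_filter.mp (mem_coe.mp hx)).1
          have h2 := mem_filter.mp (mem_filter.mp (mem_coe.mp hz)).1
          have e1 := (mem_filter.mp h1.1).2
          have e2 := (mem_filter.mp h2.1).2
          rw [h1.2] at e1
          rw [h2.2] at e2
          simp only at hxz
          refine Prod.ext (Prod.ext ?_ hxz) (h1.2.trans h2.2.symm)
          omega
      have hc := (card_le_card hsub).trans (card_union_le _ _)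
      have hc3 : (F.filter fun x => x.2 = p).card ≤ 2 * Z.card := by omega
      calc Q * (F.filter fun x => x.2 = p).card ≤ Q * (2 * Z.card) := Nat.mul_le_mul_left _ hc3
        _ = 2 * (Q * Z.card) := by ring
        _ ≤ 2 * (2 * n) := Nat.mul_le_mul_left _ hZc
        _ = 4 * n := by ring
  rw [hE, hfib, mul_sum]
  refine (sum_le_sum hp).trans ?_
  rw [sum_add_distrib, sum_const, smul_eq_mul, card_product, sum_product]
  have : ∀ a ∈ Y, ∑ b ∈ Y, (if (a, b).1 = (a, b).2 then Q * (R y₀).card else 0) =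
      Q * (R y₀).card := by
    intro a ha
    simp [ha]
  rw [sum_congr rfl this, sum_const, smul_eq_mul]
  apply le_of_eq
  ring

/-- the square `[-N, N]^2`, as a set of points of `A` -/
def boxSet (A : Set (ℤ × ℤ)) (N : ℕ) : Set (ℤ × ℤ) := {p | p ∈ A ∧ |p.1| ≤ N ∧ |p.2| ≤ N}

theorem boxSet_card (A : Set (ℤ × ℤ)) (N : ℕ) (R : ℤ → Finset ℤ)
    (hR : ∀ y x, x ∈ R y ↔ x ∈ Icc (-(N : ℤ)) N ∧ (x, y) ∈ A) :
    (boxSet A N).ncard = ∑ y ∈ Icc (-(N : ℤ)) N, (R y).card := by
  classical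
  have h : boxSet A N = (((Icc (-(N : ℤ)) N).sigma R).image
      (fun s : (_ : ℤ) × ℤ => (s.2, s.1)) : Finset (ℤ × ℤ)) := by
    ext ⟨x, y⟩
    simp only [boxSet, Set.mem_ofPred_eq, coe_image, coe_sigma, Set.mem_image, Set.mem_sigma_iff,
      mem_coe, hR, mem_Icc, abs_le]
    constructor
    · rintro ⟨h1, h2, h3⟩
      exact ⟨⟨y, x⟩, ⟨h3, h2, h1⟩, rfl⟩
    · rintro ⟨⟨y', x'⟩, ⟨h1, h2, h3⟩, h4⟩
      simp only [Prod.mk.injEq] at h4
      obtain ⟨rfl, rfl⟩ := h4
      exact ⟨h3, h2, h1⟩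
  rw [h, Set.ncard_coe_finset, card_image_of_injective, card_sigma]
  rintro ⟨a, b⟩ ⟨c, e⟩ h
  simp only [Prod.mk.injEq] at h
  obtain ⟨rfl, rfl⟩ := h
  rfl

theorem core (A : Set (ℤ × ℤ)) (d N K t H Q : ℕ)
    (hA : ∀ T : Finset ℤ, Shattered A N T → T.card ≤ d) (hsq : ¬ HasSquare A)
    (hN : 1 ≤ N) (hK : 1 ≤ K) (hH : H = 18 * K) (hQ : Q = 16 * H ^ 2)
    (ht : (2 * N + 1) ^ 2 < 2 ^ t) (hbig : 4 * H ^ 2 * (Q * t + 1) ^ d < 2 * N + 1) :
    K * (boxSet A N).ncard < N ^ 2 := by
  classical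
  by_contra hcon
  push Not at hcon
  set L := Icc (-(N : ℤ)) N with hLdef
  set n := 2 * N + 1 with hn
  have hLc : L.card = n := by
    rw [hLdef, Int.card_Icc]
    omega
  let R : ℤ → Finset ℤ := fun y => L.filter fun x => (x, y) ∈ A
  have hR : ∀ y x, x ∈ R y ↔ x ∈ L ∧ (x, y) ∈ A := fun y x => mem_filter
  have hbox := boxSet_card A N R hR
  set W := (boxSet A N).ncard with hW
  have hRn : ∀ y, (R y).card ≤ n := fun y => hLc ▸ card_filter_le _ _
  have hn9 : n ^ 2 ≤ 9 * K * W := by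
    calc n ^ 2 ≤ (3 * N) ^ 2 := Nat.pow_le_pow_left (by omega) 2
      _ = 9 * N ^ 2 := by ring
      _ ≤ 9 * (K * W) := Nat.mul_le_mul_left _ hcon
      _ = 9 * K * W := by ring
  have hnpos : 0 < n := by omega
  set M := L.filter (fun y => W ≤ 2 * n * (R y).card) with hM
  have hWM : W ≤ 2 * n * M.card := by
    have h1 : 2 * n * W ≤ 2 * n * n * M.card + n * W := by
      calc 2 * n * W = ∑ y ∈ L, 2 * n * (R y).card := by rw [hbox, mul_sum]
        _ ≤ ∑ y ∈ L, ((if W ≤ 2 * n * (R y).card then 2 * n * n else 0) + W) := by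
            refine sum_le_sum fun y _ => ?_
            split_ifs with h
            · exact (Nat.mul_le_mul_left _ (hRn y)).trans (Nat.le_add_right _ _)
            · omega
        _ = 2 * n * n * M.card + n * W := by
            rw [sum_add_distrib, sum_const, smul_eq_mul, hLc, ← sum_filter, sum_const, smul_eq_mul,
              ← hM]
            ring
    have h2 : n * W ≤ n * (2 * n * M.card) := by
      have : n * (2 * n * M.card) = 2 * n * n * M.card := by ring
      rw [this]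
      have h3 : 2 * n * W = n * W + n * W := by ring
      omega
    exact Nat.le_of_mul_le_mul_left h2 hnpos
  have hHM : n ≤ H * M.card := by
    have h1 : n * n ≤ n * (H * M.card) := by
      calc n * n = n ^ 2 := by ring
        _ ≤ 9 * K * W := hn9
        _ ≤ 9 * K * (2 * n * M.card) := Nat.mul_le_mul_left _ hWM
        _ = n * (H * M.card) := by rw [hH]; ring
    exact Nat.le_of_mul_le_mul_left h1 hnpos
  have hHR : ∀ y ∈ M, n ≤ H * (R y).card := by
    intro y hy
    have hy' := (mem_filter.mp hy).2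
    have h1 : n * n ≤ n * (H * (R y).card) := by
      calc n * n = n ^ 2 := by ring
        _ ≤ 9 * K * W := hn9
        _ ≤ 9 * K * (2 * n * (R y).card) := Nat.mul_le_mul_left _ hy'
        _ = n * (H * (R y).card) := by rw [hH]; ring
    exact Nat.le_of_mul_le_mul_left h1 hnpos
  have hMne : M.Nonempty := by
    rw [← card_pos]
    rcases Nat.eq_zero_or_pos M.card with h | h
    · rw [h] at hHM; omega
    · exact h
  have hQ1 : 1 ≤ Q := by
    have : 0 < H ^ 2 := pow_pos (by omega) 2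
    omega
  have hA' : ∀ U ⊆ L, (∀ S ⊆ U, ∃ y ∈ M, ∀ x ∈ U, ((x, y) ∈ A ↔ x ∈ S)) → U.card ≤ d := by
    intro U hU h
    refine hA U ⟨fun x hx => ?_, fun S hS => ?_⟩
    · have := hU hx
      rw [hLdef, mem_Icc] at this
      exact abs_le.mpr this
    · obtain ⟨y, hy, hy'⟩ := h S hS
      have := (mem_filter.mp hy).1
      rw [hLdef, mem_Icc] at this
      exact ⟨y, abs_le.mpr this, hy'⟩
  obtain ⟨Y, hYM, hYne, hMY, hclose⟩ := large_class A d L M hA' R hR hMne (by omega)
    (card_filter_le _ _) Q t hQ1 (by rw [hLc]; exact ht)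
  obtain ⟨y₀, hy₀⟩ := hYne
  have hE := energy_bound A hsq n Q L Y R hR y₀ hy₀ (by rw [← hLc]; exact hclose)
  have hE2 : (R y₀).card ^ 2 * Y.card ^ 2 ≤ 2 * n * E[R y₀, Y] := by
    refine (le_card_add_mul_addEnergy (R y₀) Y).trans (Nat.mul_le_mul_right _ ?_)
    have : R y₀ + Y ⊆ Icc (-(2 * N : ℤ)) (2 * N) := by
      intro z hz
      obtain ⟨a, ha, b, hb, rfl⟩ := mem_add.mp hz
      have ha' := ((hR _ _).mp ha).1
      have hb' := (mem_filter.mp (hYM hb)).1
      rw [hLdef, mem_Icc] at ha' hb'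
      rw [mem_Icc]
      omega
    refine (card_le_card this).trans ?_
    rw [Int.card_Icc]
    omega
  set r := (R y₀).card with hr
  set u := Y.card with hu
  have hupos : 0 < u := card_pos.mpr ⟨y₀, hy₀⟩
  have hnr : n ≤ H * r := hHR y₀ (hYM hy₀)
  have hrpos : 0 < r := by
    rcases Nat.eq_zero_or_pos r with h | h
    · rw [h] at hnr; omega
    · exact h
  have k1 : Q * r ^ 2 * u * u ≤ (2 * n * (Q * r) + 8 * n ^ 2 * u) * u := by
    calc Q * r ^ 2 * u * u = Q * (r ^ 2 * u ^ 2) := by ring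
      _ ≤ Q * (2 * n * E[R y₀, Y]) := Nat.mul_le_mul_left _ hE2
      _ = 2 * n * (Q * E[R y₀, Y]) := by ring
      _ ≤ 2 * n * (Q * r * u + 4 * n * u ^ 2) := Nat.mul_le_mul_left _ hE
      _ = (2 * n * (Q * r) + 8 * n ^ 2 * u) * u := by ring
  have k2 : Q * r ^ 2 * u ≤ 2 * n * (Q * r) + 8 * n ^ 2 * u := Nat.le_of_mul_le_mul_right k1 hupos
  have k3 : 2 * n * (Q * r) + 8 * n ^ 2 * u ≤ 2 * (H * r) * (Q * r) + 8 * (H * r) ^ 2 * u := by
    gcongr
  have k4 : r ^ 2 * (Q * u) ≤ r ^ 2 * (2 * H * Q + 8 * H ^ 2 * u) := by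
    calc r ^ 2 * (Q * u) = Q * r ^ 2 * u := by ring
      _ ≤ 2 * (H * r) * (Q * r) + 8 * (H * r) ^ 2 * u := k2.trans k3
      _ = r ^ 2 * (2 * H * Q + 8 * H ^ 2 * u) := by ring
  have k5 : Q * u ≤ 2 * H * Q + 8 * H ^ 2 * u := Nat.le_of_mul_le_mul_left k4 (pow_pos hrpos 2)
  have k6 : u ≤ 4 * H := by
    have hHpos : 0 < 8 * H ^ 2 := by
      have : 0 < H := by omega
      positivity
    have : 8 * H ^ 2 * u ≤ 8 * H ^ 2 * (4 * H) := by
      rw [hQ] at k5
      have e1 : 16 * H ^ 2 * u = 8 * H ^ 2 * u + 8 * H ^ 2 * u := by ring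
      have e2 : 2 * H * (16 * H ^ 2) = 8 * H ^ 2 * (4 * H) := by ring
      omega
    exact Nat.le_of_mul_le_mul_left this hHpos
  have k7 : n ≤ 4 * H ^ 2 * (Q * t + 1) ^ d := by
    calc n ≤ H * M.card := hHM
      _ ≤ H * ((Q * t + 1) ^ d * u) := Nat.mul_le_mul_left _ hMY
      _ ≤ H * ((Q * t + 1) ^ d * (4 * H)) := by gcongr
      _ = 4 * H ^ 2 * (Q * t + 1) ^ d := by ring
  omega

/-- the constant -/
def cst (d : ℕ) : ℕ := 16 * 33 ^ (2 * d) * 18 ^ (4 * d + 4) * ((2 * d).factorial * 2 ^ (2 * d))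

theorem cst_pos (d : ℕ) : 1 ≤ cst d := by
  have : 0 < cst d := by
    unfold cst
    have := Nat.factorial_pos (2 * d)
    positivity
  omega

theorem power_saving (A : Set (ℤ × ℤ)) (d N K : ℕ)
    (hA : ∀ T : Finset ℤ, Shattered A N T → T.card ≤ d) (hsq : ¬ HasSquare A) (hK : 1 ≤ K) (hNK : cst d * K ^ (4 * d + 4) ≤ N) :
    K * (boxSet A N).ncard < N ^ 2 := by
  have hN : 1 ≤ N := by
    have : 0 < cst d * K ^ (4 * d + 4) := Nat.mul_pos (cst_pos d) (pow_pos hK _)
    omega
  set n := 2 * N + 1 with hn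
  set l := Nat.log 2 n with hl
  have hlt : n < 2 ^ (l + 1) := Nat.lt_pow_succ_log_self (by norm_num) n
  have hle : 2 ^ l ≤ n := Nat.pow_log_le_self 2 (by omega)
  refine core A d N K (2 * (l + 1)) (18 * K) (16 * (18 * K) ^ 2) hA hsq hN hK rfl rfl ?_ ?_
  · rw [mul_comm 2 (l + 1), pow_mul]
    exact Nat.pow_lt_pow_left hlt (by norm_num)
  · set H := 18 * K with hH
    have hHpos : 0 < H := by omega
    have h1 : 16 * H ^ 2 * (2 * (l + 1)) + 1 ≤ 33 * H ^ 2 * (l + 1) := by
      have : 1 ≤ H ^ 2 * (l + 1) := Nat.mul_pos (pow_pos hHpos 2) (by omega)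
      calc 16 * H ^ 2 * (2 * (l + 1)) + 1 = 32 * (H ^ 2 * (l + 1)) + 1 := by ring
        _ ≤ 33 * (H ^ 2 * (l + 1)) := by omega
        _ = 33 * H ^ 2 * (l + 1) := by ring
    have h2 : (4 * H ^ 2 * (16 * H ^ 2 * (2 * (l + 1)) + 1) ^ d) ^ 2 < n ^ 2 := by
      calc (4 * H ^ 2 * (16 * H ^ 2 * (2 * (l + 1)) + 1) ^ d) ^ 2
          ≤ (4 * H ^ 2 * (33 * H ^ 2 * (l + 1)) ^ d) ^ 2 := by gcongr
        _ = 16 * 33 ^ (2 * d) * H ^ (4 * d + 4) * (l + 1) ^ (2 * d) := by
            rw [mul_pow (33 * H ^ 2), mul_pow 33, ← pow_mul H 2 d]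
            ring
        _ ≤ 16 * 33 ^ (2 * d) * H ^ (4 * d + 4) *
              (((2 * d).factorial * 2 ^ (2 * d)) * 2 ^ l) :=
            Nat.mul_le_mul_left _ (pow_le_two_pow (2 * d) l)
        _ ≤ 16 * 33 ^ (2 * d) * H ^ (4 * d + 4) *
              (((2 * d).factorial * 2 ^ (2 * d)) * n) := by gcongr
        _ = (cst d * K ^ (4 * d + 4)) * n := by
            rw [hH, mul_pow 18 K, cst]
            ring
        _ ≤ N * n := Nat.mul_le_mul_right _ hNK
        _ < n * n := Nat.mul_lt_mul_of_pos_right (by omega) (by omega)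
        _ = n ^ 2 := by ring
    exact lt_of_pow_lt_pow_left₀ 2 (by omega) h2

end N326.GS
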