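import Pool.Agent.N326.GS.C

namespace N326.GS

open Finset

/-- the weight `1 / (x^2 + y^2)` on `A` -/
noncomputable def wt (A : Set (ℤ × ℤ)) : ℤ × ℤ → ℝ :=
  A.indicator (fun p : ℤ × ℤ => (1 : ℝ) / ((p.1 : ℝ) ^ 2 + (p.2 : ℝ) ^ 2))

theorem wt_nonneg (A : Set (ℤ × ℤ)) (p : ℤ × ℤ) : 0 ≤ wt A p := by
  unfold wt
  exact Set.indicator_nonneg (fun q _ => by positivity) p

/-- the box `[-2^j, 2^j]^2` -/
noncomputable def box (j : ℕ) : Finset (ℤ × ℤ) :=
  Icc (-((2 ^ j : ℕ) : ℤ)) ((2 ^ j : ℕ) : ℤ) ×ˢ Icc (-((2 ^ j : ℕ) : ℤ)) ((2 ^ j : ℕ) : ℤ)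

theorem mem_box (j : ℕ) (p : ℤ × ℤ) :
    p ∈ box j ↔ |p.1| ≤ ((2 ^ j : ℕ) : ℤ) ∧ |p.2| ≤ ((2 ^ j : ℕ) : ℤ) := by
  rw [box, mem_product, mem_Icc, mem_Icc, abs_le, abs_le]

theorem box_mono {i j : ℕ} (h : i ≤ j) : box i ⊆ box j := by
  intro p hp
  rw [mem_box] at hp ⊢
  have : ((2 ^ i : ℕ) : ℤ) ≤ ((2 ^ j : ℕ) : ℤ) := by
    exact_mod_cast Nat.pow_le_pow_right (by norm_num) h
  exact ⟨hp.1.trans this, hp.2.trans this⟩

theorem wt_le (A : Set (ℤ × ℤ)) (j : ℕ) (p : ℤ × ℤ) (hp : p ∉ box j) :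
    wt A p ≤ A.indicator (fun _ => (1 : ℝ) / 4 ^ j) p := by
  unfold wt
  by_cases hpA : p ∈ A
  · rw [Set.indicator_of_mem hpA, Set.indicator_of_mem hpA]
    have hpos : (0 : ℝ) < 4 ^ j := by positivity
    refine one_div_le_one_div_of_le hpos ?_
    rw [mem_box, not_and_or, not_le, not_le] at hp
    have h4 : (4 : ℝ) ^ j = ((2 : ℝ) ^ j) ^ 2 := by
      rw [← pow_mul, mul_comm j 2, pow_mul]; norm_num
    rcases hp with h | h
    · have h' : (2 : ℝ) ^ j < |(p.1 : ℝ)| := by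
        have : (((2 ^ j : ℕ) : ℤ) : ℝ) < ((|p.1| : ℤ) : ℝ) := by exact_mod_cast h
        push_cast at this
        exact this
      rw [h4, ← sq_abs (p.1 : ℝ)]
      nlinarith [sq_nonneg (p.2 : ℝ), pow_pos (show (0 : ℝ) < 2 by norm_num) j]
    · have h' : (2 : ℝ) ^ j < |(p.2 : ℝ)| := by
        have : (((2 ^ j : ℕ) : ℤ) : ℝ) < ((|p.2| : ℤ) : ℝ) := by exact_mod_cast h
        push_cast at this
        exact this
      rw [h4, ← sq_abs (p.2 : ℝ)]
      nlinarith [sq_nonneg (p.1 : ℝ), pow_pos (show (0 : ℝ) < 2 by norm_num) j]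
  · rw [Set.indicator_of_notMem hpA, Set.indicator_of_notMem hpA]

theorem summable_of (A : Set (ℤ × ℤ)) (j₀ : ℕ)
    (h : ∀ j, j₀ ≤ j → (j + 1) ^ 2 * (boxSet A (2 ^ j)).ncard < (2 ^ j) ^ 2) :
    Summable (wt A) := by
  classical
  have hstep : ∀ j, j₀ ≤ j → ∑ p ∈ box (j + 1), wt A p + 4 / ((j : ℝ) + 2) ≤
      ∑ p ∈ box j, wt A p + 4 / ((j : ℝ) + 1) := by
    intro j hj
    have h1 : ∑ p ∈ box (j + 1), wt A p = ∑ p ∈ box j, wt A p +
        ∑ p ∈ box (j + 1) \ box j, wt A p := by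
      have := sum_sdiff (f := wt A) (box_mono (show j ≤ j + 1 by omega))
      linarith
    have h2 : ∑ p ∈ box (j + 1) \ box j, wt A p ≤
        ((boxSet A (2 ^ (j + 1))).ncard : ℝ) * (1 / 4 ^ j) := by
      calc ∑ p ∈ box (j + 1) \ box j, wt A p
          ≤ ∑ p ∈ box (j + 1) \ box j, A.indicator (fun _ => (1 : ℝ) / 4 ^ j) p :=
            sum_le_sum fun p hp => wt_le A j p (mem_sdiff.mp hp).2
        _ ≤ ∑ p ∈ box (j + 1), A.indicator (fun _ => (1 : ℝ) / 4 ^ j) p :=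
            sum_le_sum_of_subset_of_nonneg sdiff_subset fun p _ _ =>
              Set.indicator_nonneg (fun q _ => by positivity) p
        _ = ((boxSet A (2 ^ (j + 1))).ncard : ℝ) * (1 / 4 ^ j) := by
            have e1 : ∑ p ∈ box (j + 1), A.indicator (fun _ => (1 : ℝ) / 4 ^ j) p =
                ∑ p ∈ (box (j + 1)).filter (fun p => p ∈ A), (1 : ℝ) / 4 ^ j := by
              rw [sum_filter]
              exact sum_congr rfl fun p _ => by rw [Set.indicator_apply]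
            have e2 : boxSet A (2 ^ (j + 1)) =
                ((box (j + 1)).filter (fun p => p ∈ A) : Finset (ℤ × ℤ)) := by
              ext p
              simp only [boxSet, Set.mem_ofPred_eq, coe_filter, mem_box]
              tauto
            rw [e1, sum_const, nsmul_eq_mul, e2, Set.ncard_coe_finset]
    have h3 := h (j + 1) (by omega)
    have h4 : (((j : ℝ) + 2) ^ 2) * ((boxSet A (2 ^ (j + 1))).ncard : ℝ) ≤ 4 * 4 ^ j := by
      have : (((j + 1 + 1) ^ 2 * (boxSet A (2 ^ (j + 1))).ncard : ℕ) : ℝ) ≤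
          (((2 ^ (j + 1)) ^ 2 : ℕ) : ℝ) := by exact_mod_cast h3.le
      push_cast at this
      have e : ((2 : ℝ) ^ (j + 1)) ^ 2 = 4 * 4 ^ j := by
        rw [← pow_mul, mul_comm (j + 1) 2, pow_mul]; norm_num [pow_succ]; ring
      rw [e] at this
      have e' : (j : ℝ) + 1 + 1 = j + 2 := by ring
      rw [e'] at this
      exact this
    have hjp : (0 : ℝ) < (j : ℝ) + 1 := by positivity
    have hjp2 : (0 : ℝ) < (j : ℝ) + 2 := by positivity
    have h5 : ((boxSet A (2 ^ (j + 1))).ncard : ℝ) * (1 / 4 ^ j) ≤ 4 / ((j : ℝ) + 2) ^ 2 := by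
      rw [mul_one_div, div_le_div_iff₀ (by positivity) (by positivity)]
      linarith
    have h6 : 4 / ((j : ℝ) + 2) ^ 2 + 4 / ((j : ℝ) + 2) ≤ 4 / ((j : ℝ) + 1) := by
      rw [div_add_div _ _ (by positivity) (by positivity),
        div_le_div_iff₀ (by positivity) (by positivity)]
      nlinarith
    linarith
  have hind : ∀ k : ℕ, ∑ p ∈ box (j₀ + k), wt A p + 4 / (((j₀ + k : ℕ) : ℝ) + 1) ≤
      ∑ p ∈ box j₀, wt A p + 4 / ((j₀ : ℝ) + 1) := by
    intro k
    induction k with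
    | zero => simp
    | succ k ih =>
      have := hstep (j₀ + k) (Nat.le_add_right _ _)
      have e : (((j₀ + (k + 1) : ℕ) : ℝ) + 1) = ((j₀ + k : ℕ) : ℝ) + 2 := by push_cast; ring
      rw [e]
      exact this.trans ih
  refine summable_of_sum_le (wt_nonneg A) (c := ∑ p ∈ box j₀, wt A p + 4 / ((j₀ : ℝ) + 1))
    fun u => ?_
  set k := ∑ p ∈ u, (p.1.natAbs + p.2.natAbs) with hk
  have hu : u ⊆ box (j₀ + k) := by
    intro p hp
    rw [mem_box]
    have h1 : p.1.natAbs + p.2.natAbs ≤ k :=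
      single_le_sum (f := fun p : ℤ × ℤ => p.1.natAbs + p.2.natAbs) (fun _ _ => Nat.zero_le _) hp
    have h2 : j₀ + k < 2 ^ (j₀ + k) := Nat.lt_two_pow_self
    have h3 : ((j₀ + k : ℕ) : ℤ) < ((2 ^ (j₀ + k) : ℕ) : ℤ) := by exact_mod_cast h2
    rw [Int.abs_eq_natAbs, Int.abs_eq_natAbs]
    constructor <;> omega
  have hpos : (0 : ℝ) ≤ 4 / (((j₀ + k : ℕ) : ℝ) + 1) := by positivity
  have := hind k
  have h2 : ∑ p ∈ u, wt A p ≤ ∑ p ∈ box (j₀ + k), wt A p :=
    sum_le_sum_of_subset_of_nonneg hu fun p _ _ => wt_nonneg A p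
  linarith

theorem eight_log (l : ℕ) (hl : 9 ≤ l) : 4 * (29 + 8 * l) ≤ 2 ^ l := by
  induction l, hl using Nat.le_induction with
  | base => norm_num
  | succ l hl ih => rw [pow_succ]; omega

theorem cst_le (d m : ℕ) (hd : 2 * d ≤ 2 ^ m) : cst d ≤ 2 ^ (21 + 29 * d + 2 * d * m) := by
  have h1 : (2 * d).factorial ≤ (2 ^ m) ^ (2 * d) :=
    (Nat.factorial_le_pow (2 * d)).trans (Nat.pow_le_pow_left hd _)
  calc cst d = (16 * 18 ^ 4) * (33 ^ 2 * 18 ^ 4 * 2 ^ 2) ^ d * (2 * d).factorial := by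
        unfold cst
        rw [mul_pow, mul_pow, ← pow_mul, ← pow_mul, ← pow_mul, pow_add 18 (4 * d) 4]
        ring
    _ ≤ 2 ^ 21 * (2 ^ 29) ^ d * (2 ^ m) ^ (2 * d) := by
        gcongr <;> norm_num
    _ = 2 ^ (21 + 29 * d + 2 * d * m) := by
        rw [← pow_mul, ← pow_mul, ← pow_add, ← pow_add]
        congr 1
        ring

theorem numeric (j d : ℕ) (hj : 512 ≤ j)
    (hd : (d : ℝ) ≤ Real.log (2 ^ j) / (100 * Real.log (Real.log (2 ^ j)))) :
    cst d * ((j + 1) ^ 2) ^ (4 * d + 4) ≤ 2 ^ j := by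
  have hjr : (512 : ℝ) ≤ j := by exact_mod_cast hj
  set X := Real.log (2 ^ j) with hX
  have hXe : X = j * Real.log 2 := by rw [hX, Real.log_pow]
  have hl2 : 0.69 < Real.log 2 := by linarith [Real.log_two_gt_d9]
  have hl2' : Real.log 2 < 0.7 := by linarith [Real.log_two_lt_d9]
  have hX300 : 300 ≤ X := by rw [hXe]; nlinarith
  have hXj : X ≤ j := by rw [hXe]; nlinarith
  have hlogX : 1 ≤ Real.log X := by
    rw [Real.le_log_iff_exp_le (by linarith)]
    have := Real.exp_one_lt_d9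
    linarith
  have hdX : 100 * (d * Real.log X) ≤ X := by
    rw [le_div_iff₀ (by positivity)] at hd
    linarith
  have hd0 : (0 : ℝ) ≤ d := Nat.cast_nonneg d
  have hd1 : 100 * (d : ℝ) ≤ X := by nlinarith
  have hd100 : 100 * d ≤ j := by
    have : (100 * (d : ℝ)) ≤ j := hd1.trans hXj
    exact_mod_cast this
  set l := Nat.log 2 j with hl
  have hl9 : 9 ≤ l := by
    rw [hl]
    exact (Nat.le_log_iff_pow_le (by norm_num) (by omega)).mpr (by norm_num; omega)
  have hlj : 2 ^ l ≤ j := Nat.pow_log_le_self 2 (by omega)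
  have hjl : j < 2 ^ (l + 1) := Nat.lt_pow_succ_log_self (by norm_num) j
  -- `l log 2 ≤ log j ≤ 2 log X`
  have hllog : (l : ℝ) * Real.log 2 ≤ Real.log j := by
    rw [← Real.log_pow]
    refine Real.log_le_log (by positivity) ?_
    exact_mod_cast hlj
  have hlogj : Real.log j ≤ 2 * Real.log X := by
    have : Real.log j ≤ Real.log (X ^ 2) := by
      refine Real.log_le_log (by linarith) ?_
      rw [hXe]
      have h1 : (0.69 : ℝ) ^ 2 ≤ Real.log 2 ^ 2 := by gcongr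
      have h2 : (j : ℝ) ≤ j ^ 2 * 0.69 ^ 2 := by nlinarith
      calc (j : ℝ) ≤ j ^ 2 * 0.69 ^ 2 := h2
        _ ≤ j ^ 2 * Real.log 2 ^ 2 := by gcongr
        _ = (j * Real.log 2) ^ 2 := by ring
    rwa [Real.log_pow] at this
  have hl2log : Real.log 2 ≤ Real.log j := Real.log_le_log (by norm_num) (by linarith)
  have hdm : 25 * (d * (l + 1)) ≤ j := by
    have h1 : ((l : ℝ) + 1) * Real.log 2 ≤ 4 * Real.log X := by nlinarith
    have h2 : 25 * ((d : ℝ) * ((l + 1) * Real.log 2)) ≤ j * Real.log 2 := by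
      calc 25 * ((d : ℝ) * ((l + 1) * Real.log 2)) ≤ 25 * (d * (4 * Real.log X)) := by gcongr
        _ = 100 * (d * Real.log X) := by ring
        _ ≤ X := hdX
        _ = j * Real.log 2 := hXe
    have h3 : 25 * ((d : ℝ) * (l + 1)) ≤ j := by
      have h4 : (25 * ((d : ℝ) * (l + 1))) * Real.log 2 ≤ j * Real.log 2 := by linarith
      exact le_of_mul_le_mul_right h4 (by linarith)
    exact_mod_cast h3
  have h8 := eight_log l hl9
  have hj1 : j + 1 ≤ 2 ^ (l + 1) := by omega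
  have hc := cst_le d (l + 1) (by omega)
  calc cst d * ((j + 1) ^ 2) ^ (4 * d + 4)
      ≤ 2 ^ (21 + 29 * d + 2 * d * (l + 1)) * ((2 ^ (l + 1)) ^ 2) ^ (4 * d + 4) := by gcongr
    _ = 2 ^ (21 + 29 * d + 2 * d * (l + 1) + (l + 1) * 2 * (4 * d + 4)) := by
        rw [← pow_mul, ← pow_mul, ← pow_add]
        congr 1
        ring
    _ ≤ 2 ^ j := by
        refine Nat.pow_le_pow_right (by norm_num) ?_
        have e : 21 + 29 * d + 2 * d * (l + 1) + (l + 1) * 2 * (4 * d + 4) =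
            21 + 29 * d + 10 * (d * (l + 1)) + 8 * (l + 1) := by ring
        rw [e]
        omega

/-- Main theorem: VC dimension at most `log N / (100 log log N)` in the boxes `[-N, N]^2`. -/
theorem main (A : Set (ℤ × ℤ)) (N₀ : ℕ)
    (hA : ∀ N, N₀ ≤ N → ∀ T : Finset ℤ, Shattered A N T →
      (T.card : ℝ) ≤ Real.log N / (100 * Real.log (Real.log N)))
    (hsq : ¬ HasSquare A) : Summable (wt A) := by
  refine summable_of A (max N₀ 512) fun j hj => ?_
  have hj1 : N₀ ≤ j := (le_max_left _ _).trans hj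
  have hj2 : 512 ≤ j := (le_max_right _ _).trans hj
  have hjN : N₀ ≤ 2 ^ j := hj1.trans (Nat.lt_two_pow_self).le
  set d := ⌊Real.log (2 ^ j) / (100 * Real.log (Real.log (2 ^ j)))⌋₊ with hd
  have hT : ∀ T : Finset ℤ, Shattered A (2 ^ j) T → T.card ≤ d := by
    intro T hT
    rw [hd]
    refine Nat.le_floor ?_
    have := hA (2 ^ j) hjN T hT
    push_cast at this
    exact this
  have hpos : 0 ≤ Real.log (2 ^ j) / (100 * Real.log (Real.log (2 ^ j))) := by
    have hjr : (512 : ℝ) ≤ j := by exact_mod_cast hj2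
    have hXe : Real.log (2 ^ j) = j * Real.log 2 := by rw [Real.log_pow]
    have hl2 : 0.69 < Real.log 2 := by linarith [Real.log_two_gt_d9]
    have h1 : 1 ≤ Real.log (2 ^ j) := by rw [hXe]; nlinarith
    have h2 : 0 ≤ Real.log (Real.log (2 ^ j)) := Real.log_nonneg h1
    positivity
  exact power_saving A d (2 ^ j) ((j + 1) ^ 2) hT hsq (Nat.one_le_pow _ _ (by omega))
    (numeric j d hj2 (Nat.floor_le hpos))

end N326.GS
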