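import Pool.Agent.N326.GS.D

namespace N326.GS

open Finset

theorem hasSquare_swap (A : Set (ℤ × ℤ)) (h : HasSquare (Prod.swap ⁻¹' A)) : HasSquare A := by
  obtain ⟨x, y, a, ha, h1, h2, h3, h4⟩ := h
  exact ⟨y, x, a, ha, h1, h3, h2, h4⟩

theorem ncard_swap (A : Set (ℤ × ℤ)) (N : ℕ) :
    (boxSet (Prod.swap ⁻¹' A) N).ncard = (boxSet A N).ncard := by
  have : boxSet (Prod.swap ⁻¹' A) N = Prod.swap '' (boxSet A N) := by
    ext ⟨x, y⟩
    simp only [boxSet, Set.mem_ofPred_eq, Set.mem_preimage, Prod.swap_prod_mk, Set.mem_image,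
      Prod.exists, Prod.mk.injEq]
    constructor
    · rintro ⟨h1, h2, h3⟩
      exact ⟨y, x, ⟨h1, h3, h2⟩, rfl, rfl⟩
    · rintro ⟨a, b, ⟨h1, h2, h3⟩, rfl, rfl⟩
      exact ⟨h1, h3, h2⟩
  rw [this, Set.ncard_image_of_injective _ Prod.swap_injective]

/-- Main theorem, with rows or columns. -/
theorem main' (A : Set (ℤ × ℤ)) (N₀ : ℕ)
    (hA : ∀ N, N₀ ≤ N →
      (∀ T : Finset ℤ, Shattered A N T →
        (T.card : ℝ) ≤ Real.log N / (100 * Real.log (Real.log N))) ∨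
      (∀ T : Finset ℤ, Shattered (Prod.swap ⁻¹' A) N T →
        (T.card : ℝ) ≤ Real.log N / (100 * Real.log (Real.log N))))
    (hsq : ¬ HasSquare A) : Summable (wt A) := by
  refine summable_of A (max N₀ 512) fun j hj => ?_
  have hj1 : N₀ ≤ j := (le_max_left _ _).trans hj
  have hj2 : 512 ≤ j := (le_max_right _ _).trans hj
  have hjN : N₀ ≤ 2 ^ j := hj1.trans (Nat.lt_two_pow_self).le
  set d := ⌊Real.log (2 ^ j) / (100 * Real.log (Real.log (2 ^ j)))⌋₊ with hd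
  have hpos : 0 ≤ Real.log (2 ^ j) / (100 * Real.log (Real.log (2 ^ j))) := by
    have hjr : (512 : ℝ) ≤ j := by exact_mod_cast hj2
    have hXe : Real.log (2 ^ j) = j * Real.log 2 := by rw [Real.log_pow]
    have hl2 : 0.69 < Real.log 2 := by linarith [Real.log_two_gt_d9]
    have h1 : 1 ≤ Real.log (2 ^ j) := by rw [hXe]; nlinarith
    have h2 : 0 ≤ Real.log (Real.log (2 ^ j)) := Real.log_nonneg h1
    positivity
  have hnum := numeric j d hj2 (Nat.floor_le hpos)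
  rcases hA (2 ^ j) hjN with h | h
  · have hT : ∀ T : Finset ℤ, Shattered A (2 ^ j) T → T.card ≤ d := by
      intro T hT
      refine Nat.le_floor ?_
      have := h T hT
      push_cast at this
      exact this
    exact power_saving A d (2 ^ j) ((j + 1) ^ 2) hT hsq (Nat.one_le_pow _ _ (by omega)) hnum
  · have hT : ∀ T : Finset ℤ, Shattered (Prod.swap ⁻¹' A) (2 ^ j) T → T.card ≤ d := by
      intro T hT
      refine Nat.le_floor ?_
      have := h T hT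
      push_cast at this
      exact this
    rw [← ncard_swap]
    exact power_saving (Prod.swap ⁻¹' A) d (2 ^ j) ((j + 1) ^ 2) hT
      (fun h => hsq (hasSquare_swap A h)) (Nat.one_le_pow _ _ (by omega)) hnum

/-- the rows of `A` have Vapnik-Chervonenkis dimension at most `d` -/
def VCAtMost (A : Set (ℤ × ℤ)) (d : ℕ) : Prop :=
  ∀ T : Finset ℤ, (∀ S ⊆ T, ∃ y : ℤ, ∀ x ∈ T, ((x, y) ∈ A ↔ x ∈ S)) → T.card ≤ d

theorem VCAtMost.shattered {A : Set (ℤ × ℤ)} {d : ℕ} (h : VCAtMost A d) (N : ℕ) (T : Finset ℤ)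
    (hT : Shattered A N T) : T.card ≤ d :=
  h T fun S hS => by
    obtain ⟨y, _, hy⟩ := hT.2 S hS
    exact ⟨y, hy⟩

theorem eventually_le (d : ℕ) : ∃ N₀ : ℕ, ∀ N : ℕ, N₀ ≤ N →
    (d : ℝ) ≤ Real.log N / (100 * Real.log (Real.log N)) := by
  have h1 : ∀ᶠ x : ℝ in Filter.atTop, 100 * (d : ℝ) * Real.log x ≤ x := by
    have hc : (0 : ℝ) < 1 / (100 * (d + 1)) := by positivity
    filter_upwards [Real.isLittleO_log_id_atTop.bound hc, Filter.eventually_ge_atTop 1] with x hx hx1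
    have hlog : 0 ≤ Real.log x := Real.log_nonneg hx1
    simp only [id_eq, Real.norm_eq_abs, abs_of_nonneg hlog, abs_of_nonneg (by linarith : 0 ≤ x)] at hx
    rw [div_mul_eq_mul_div, one_mul, le_div_iff₀ (by positivity)] at hx
    nlinarith
  have h2 : ∀ᶠ x : ℝ in Filter.atTop, 0 < Real.log x :=
    Real.tendsto_log_atTop.eventually_gt_atTop 0
  have h3 := (Real.tendsto_log_atTop.comp tendsto_natCast_atTop_atTop).eventually (h1.and h2)
  obtain ⟨N₀, hN₀⟩ := Filter.eventually_atTop.mp h3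
  refine ⟨N₀, fun N hN => ?_⟩
  obtain ⟨h4, h5⟩ := hN₀ N hN
  simp only [Function.comp_apply] at h4 h5
  rw [le_div_iff₀ (by positivity)]
  linarith

theorem fixed (A : Set (ℤ × ℤ)) (d : ℕ) (hA : VCAtMost A d) (hsq : ¬ HasSquare A) :
    Summable (wt A) := by
  obtain ⟨N₀, hN₀⟩ := eventually_le d
  refine main' A N₀ (fun N hN => Or.inl fun T hT => ?_) hsq
  have : (T.card : ℝ) ≤ d := by exact_mod_cast hA.shattered N T hT
  exact this.trans (hN₀ N hN)

theorem ncard_le (A : Set (ℤ × ℤ)) (N : ℕ) : (boxSet A N).ncard ≤ (2 * N + 1) ^ 2 := by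
  classical
  have h := boxSet_card A N (fun y => (Icc (-(N : ℤ)) N).filter fun x => (x, y) ∈ A)
    (fun y x => mem_filter)
  have hc : (Icc (-(N : ℤ)) N).card = 2 * N + 1 := by rw [Int.card_Icc]; omega
  rw [h]
  calc ∑ y ∈ Icc (-(N : ℤ)) N, ((Icc (-(N : ℤ)) N).filter fun x => (x, y) ∈ A).card
      ≤ ∑ _y ∈ Icc (-(N : ℤ)) N, (2 * N + 1) :=
        sum_le_sum fun y _ => (card_filter_le _ _).trans hc.le
    _ = (2 * N + 1) ^ 2 := by rw [sum_const, hc, smul_eq_mul]; ring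

theorem real_power (d : ℕ) : ∃ C : ℝ, 0 < C ∧ ∀ A : Set (ℤ × ℤ), VCAtMost A d → ¬ HasSquare A →
    ∀ N : ℕ, 1 ≤ N → ((boxSet A N).ncard : ℝ) ≤ C * (N : ℝ) ^ (2 - 1 / (4 * (d : ℝ) + 4)) := by
  set g : ℝ := 1 / (4 * (d : ℝ) + 4) with hg
  have hden : (0 : ℝ) < 4 * (d : ℝ) + 4 := by positivity
  have hg0 : 0 < g := by positivity
  have hc1 : (1 : ℝ) ≤ cst d := by exact_mod_cast cst_pos d
  refine ⟨9 * (cst d : ℝ) ^ g, by positivity, fun A hA hsq N hN => ?_⟩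
  have hN1 : (1 : ℝ) ≤ N := by exact_mod_cast hN
  have hN0 : (0 : ℝ) < N := by linarith
  have hpow : (N : ℝ) ^ (2 - g) * (N : ℝ) ^ g = (N : ℝ) ^ 2 := by
    rw [← Real.rpow_add hN0, sub_add_cancel]
    norm_cast
  by_cases hNc : cst d ≤ N
  · set ρ : ℝ := ((N : ℝ) / cst d) ^ g with hρ
    have hNc' : (cst d : ℝ) ≤ N := by exact_mod_cast hNc
    have hbase : 1 ≤ (N : ℝ) / cst d := by rw [one_le_div (by linarith)]; exact hNc'
    have hρ1 : 1 ≤ ρ := Real.one_le_rpow hbase hg0.le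
    set K := ⌊ρ⌋₊ with hK
    have hK1 : 1 ≤ K := Nat.le_floor (by exact_mod_cast hρ1)
    have hKρ : (K : ℝ) ≤ ρ := Nat.floor_le (by linarith)
    have hρK : ρ < K + 1 := Nat.lt_floor_add_one ρ
    have hKN : cst d * K ^ (4 * d + 4) ≤ N := by
      have h1 : (K : ℝ) ^ (4 * d + 4) ≤ (N : ℝ) / cst d := by
        calc (K : ℝ) ^ (4 * d + 4) ≤ ρ ^ (4 * d + 4) := by gcongr
          _ = (N : ℝ) / cst d := by
            rw [hρ, ← Real.rpow_natCast, ← Real.rpow_mul (by positivity), hg]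
            have : 1 / (4 * (d : ℝ) + 4) * ((4 * d + 4 : ℕ) : ℝ) = 1 := by
              push_cast
              field_simp
            rw [this, Real.rpow_one]
      rw [le_div_iff₀ (by linarith)] at h1
      have h2 : ((cst d * K ^ (4 * d + 4) : ℕ) : ℝ) ≤ N := by
        push_cast
        linarith
      exact_mod_cast h2
    have h3 := power_saving A d N K (fun T hT => hA.shattered N T hT) hsq hK1 hKN
    have h4 : (K : ℝ) * ((boxSet A N).ncard : ℝ) ≤ (N : ℝ) ^ 2 := by exact_mod_cast h3.le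
    have hK1' : (1 : ℝ) ≤ K := by exact_mod_cast hK1
    have hcard0 : (0 : ℝ) ≤ ((boxSet A N).ncard : ℝ) := Nat.cast_nonneg _
    have h5 : ρ * ((boxSet A N).ncard : ℝ) ≤ 2 * (N : ℝ) ^ 2 := by
      have : ρ * ((boxSet A N).ncard : ℝ) ≤ (2 * K) * ((boxSet A N).ncard : ℝ) := by
        gcongr
        linarith
      linarith
    have hρe : ρ * (cst d : ℝ) ^ g = (N : ℝ) ^ g := by
      rw [hρ, ← Real.mul_rpow (by positivity) (by linarith), div_mul_cancel₀]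
      linarith
    have hcg : (0 : ℝ) < (cst d : ℝ) ^ g := by positivity
    have hNg : (0 : ℝ) < (N : ℝ) ^ g := by positivity
    have h6 : ((boxSet A N).ncard : ℝ) * (N : ℝ) ^ g ≤
        (2 * (cst d : ℝ) ^ g * (N : ℝ) ^ (2 - g)) * (N : ℝ) ^ g := by
      calc ((boxSet A N).ncard : ℝ) * (N : ℝ) ^ g
          = (ρ * ((boxSet A N).ncard : ℝ)) * (cst d : ℝ) ^ g := by rw [← hρe]; ring
        _ ≤ (2 * (N : ℝ) ^ 2) * (cst d : ℝ) ^ g := by gcongr
        _ = (2 * (cst d : ℝ) ^ g * (N : ℝ) ^ (2 - g)) * (N : ℝ) ^ g := by rw [← hpow]; ring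
    have h7 := le_of_mul_le_mul_right h6 hNg
    have h8 : 0 ≤ (cst d : ℝ) ^ g * (N : ℝ) ^ (2 - g) := by positivity
    nlinarith
  · push Not at hNc
    have hNc' : (N : ℝ) ≤ cst d := by exact_mod_cast hNc.le
    have h1 : ((boxSet A N).ncard : ℝ) ≤ (2 * (N : ℝ) + 1) ^ 2 := by exact_mod_cast ncard_le A N
    have h2 : (2 * (N : ℝ) + 1) ^ 2 ≤ 9 * (N : ℝ) ^ 2 := by nlinarith
    have h3 : (N : ℝ) ^ g ≤ (cst d : ℝ) ^ g := Real.rpow_le_rpow hN0.le hNc' hg0.le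
    calc ((boxSet A N).ncard : ℝ) ≤ 9 * (N : ℝ) ^ 2 := h1.trans h2
      _ = 9 * (N : ℝ) ^ g * (N : ℝ) ^ (2 - g) := by rw [← hpow]; ring
      _ ≤ 9 * (cst d : ℝ) ^ g * (N : ℝ) ^ (2 - g) := by gcongr

end N326.GS
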