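import Pool.Agent.N326.GS.E

namespace N326.GS

open Finset

variable {α : Type} [DecidableEq α]

/-- number of small subsets -/
theorem card_small' (T : Finset α) (d : ℕ) :
    (T.powerset.filter (fun U => U.card ≤ d)).card ≤ (T.card + 1) ^ d := by
  have h : T.powerset.filter (fun U => U.card ≤ d) ⊆
      (range (d + 1)).biUnion (fun i => T.powersetCard i) := by
    intro U hU
    simp only [mem_filter, mem_powerset] at hU
    simp only [mem_biUnion, mem_range, mem_powersetCard]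
    exact ⟨U.card, by omega, hU.1, rfl⟩
  refine (card_le_card h).trans (card_biUnion_le.trans ?_)
  rw [add_pow]
  refine sum_le_sum fun i hi => ?_
  rw [card_powersetCard]
  have h1 : 1 ≤ d.choose i := Nat.choose_pos (by simpa [Nat.lt_succ_iff] using hi)
  calc T.card.choose i ≤ T.card ^ i := Nat.choose_le_pow _ _
    _ = T.card ^ i * 1 ^ (d - i) * 1 := by simp
    _ ≤ T.card ^ i * 1 ^ (d - i) * d.choose i := Nat.mul_le_mul_left _ h1

/-- Sampling -/
theorem sample' {ι : Type} [DecidableEq ι] (L : Finset α) (I : Finset ι) (D : ι → Finset α)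
    (Q t : ℕ) (hQ : 1 ≤ Q) (hL : 0 < L.card) (hD : ∀ p ∈ I, D p ⊆ L)
    (hfar : ∀ p ∈ I, L.card ≤ Q * (D p).card) (ht : I.card < 2 ^ t) :
    ∃ T : Finset α, T ⊆ L ∧ T.card ≤ Q * t ∧ ∀ p ∈ I, ∃ x ∈ T, x ∈ D p := by
  classical
  set s := Q * t with hs
  set n := L.card with hn
  let Ω : Finset (Fin s → α) := Fintype.piFinset fun _ => L
  let B : ι → Finset (Fin s → α) := fun p => Fintype.piFinset fun _ => L \ D p
  have hΩ : Ω.card = n ^ s := Fintype.card_piFinset_const L s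
  have hB : ∀ p ∈ I, 2 ^ t * (B p).card ≤ n ^ s := by
    intro p hp
    have h1 : (B p).card = (L \ D p).card ^ s := Fintype.card_piFinset_const _ s
    have h2 : (L \ D p).card = n - (D p).card := by
      rw [card_sdiff_of_subset (hD p hp)]
    have h3 : Q * (L \ D p).card ≤ n * (Q - 1) := by
      rw [h2, Nat.mul_sub, Nat.mul_sub, mul_comm n Q, mul_one]
      exact Nat.sub_le_sub_left (hfar p hp) _
    have h4 : Q ^ s * (2 ^ t * (B p).card) ≤ Q ^ s * n ^ s := by
      calc Q ^ s * (2 ^ t * (B p).card) = 2 ^ t * (Q * (L \ D p).card) ^ s := by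
            rw [h1, mul_pow]; ring
        _ ≤ 2 ^ t * (n * (Q - 1)) ^ s := Nat.mul_le_mul_left _ (Nat.pow_le_pow_left h3 s)
        _ = n ^ s * (2 ^ t * (Q - 1) ^ s) := by rw [mul_pow]; ring
        _ ≤ n ^ s * Q ^ s := Nat.mul_le_mul_left _ (sample_pow Q t hQ)
        _ = Q ^ s * n ^ s := by ring
    exact Nat.le_of_mul_le_mul_left h4 (pow_pos (by omega) s)
  have hU : (I.biUnion B).card < Ω.card := by
    have h5 : 2 ^ t * (I.biUnion B).card ≤ I.card * n ^ s := by
      calc 2 ^ t * (I.biUnion B).card ≤ 2 ^ t * ∑ p ∈ I, (B p).card :=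
            Nat.mul_le_mul_left _ card_biUnion_le
        _ = ∑ p ∈ I, 2 ^ t * (B p).card := by rw [mul_sum]
        _ ≤ ∑ _p ∈ I, n ^ s := sum_le_sum hB
        _ = I.card * n ^ s := by rw [sum_const, smul_eq_mul]
    have h6 : I.card * n ^ s < 2 ^ t * n ^ s := Nat.mul_lt_mul_of_pos_right ht (pow_pos hL s)
    rw [hΩ]
    exact Nat.lt_of_mul_lt_mul_left (h5.trans_lt h6)
  obtain ⟨f, hf, hfU⟩ := exists_mem_notMem_of_card_lt_card hU
  have hfL : ∀ i, f i ∈ L := by simpa [Ω, Fintype.mem_piFinset] using hf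
  refine ⟨univ.image f, ?_, ?_, ?_⟩
  · intro x hx
    obtain ⟨i, _, rfl⟩ := mem_image.mp hx
    exact hfL i
  · exact card_image_le.trans (by simp)
  · intro p hp
    by_contra hcon
    push Not at hcon
    apply hfU
    rw [mem_biUnion]
    refine ⟨p, hp, ?_⟩
    rw [Fintype.mem_piFinset]
    intro i
    rw [mem_sdiff]
    exact ⟨hfL i, hcon (f i) (mem_image.mpr ⟨i, mem_univ _, rfl⟩)⟩

/-- Few classes of almost equal sets. -/
theorem classes (L : Finset α) (M : Finset ℕ) (R : ℕ → Finset α) (d Q t : ℕ)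
    (hRL : ∀ y, R y ⊆ L)
    (hA : ∀ U ⊆ L, (∀ S ⊆ U, ∃ y ∈ M, ∀ x ∈ U, (x ∈ R y ↔ x ∈ S)) → U.card ≤ d)
    (hL : 0 < L.card) (hQ : 1 ≤ Q) (ht : M.card ^ 2 < 2 ^ t) :
    ∃ g : ℕ → Finset α, (M.image g).card ≤ (Q * t + 1) ^ d ∧
      ∀ y ∈ M, ∀ y' ∈ M, g y = g y' → Q * (R y \ R y').card ≤ L.card := by
  classical
  let D : ℕ × ℕ → Finset α := fun p => (R p.1 \ R p.2) ∪ (R p.2 \ R p.1)
  let I : Finset (ℕ × ℕ) := (M ×ˢ M).filter fun p => L.card ≤ Q * (D p).card
  have hI : I.card < 2 ^ t := by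
    refine lt_of_le_of_lt ?_ ht
    calc I.card ≤ (M ×ˢ M).card := card_filter_le _ _
      _ = M.card ^ 2 := by rw [card_product]; ring
  obtain ⟨T, hTL, hTc, hT⟩ := sample' L I D Q t hQ hL
    (fun p _ => union_subset (sdiff_subset.trans (hRL _)) (sdiff_subset.trans (hRL _)))
    (fun p hp => (mem_filter.mp hp).2) hI
  refine ⟨fun y => R y ∩ T, ?_, ?_⟩
  · set F := M.image fun y => R y ∩ T with hF
    calc F.card ≤ F.shatterer.card := card_le_card_shatterer F
      _ ≤ (T.powerset.filter (fun U => U.card ≤ d)).card := by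
          refine card_le_card fun U hU => ?_
          rw [mem_shatterer] at hU
          have hUT : U ⊆ T := by
            obtain ⟨u, hu, hUu⟩ := hU (Subset.refl U)
            obtain ⟨y, _, rfl⟩ := mem_image.mp hu
            intro x hx
            have : x ∈ U ∩ (R y ∩ T) := by rw [hUu]; exact hx
            exact (mem_inter.mp (mem_inter.mp this).2).2
          rw [mem_filter, mem_powerset]
          refine ⟨hUT, hA U (hUT.trans hTL) fun S hS => ?_⟩
          obtain ⟨u, hu, hUu⟩ := hU hS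
          obtain ⟨y, hyM, rfl⟩ := mem_image.mp hu
          refine ⟨y, hyM, fun x hx => ?_⟩
          have hxT := hUT hx
          rw [← hUu]
          simp only [mem_inter]
          tauto
      _ ≤ (T.card + 1) ^ d := card_small' T d
      _ ≤ (Q * t + 1) ^ d := Nat.pow_le_pow_left (by omega) d
  · intro y hy y' hy' hg
    by_contra hcon
    push Not at hcon
    have hmem : (y, y') ∈ I := by
      rw [mem_filter, mem_product]
      refine ⟨⟨hy, hy'⟩, hcon.le.trans (Nat.mul_le_mul_left _ (card_le_card ?_))⟩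
      exact subset_union_left
    obtain ⟨x, hxT, hxD⟩ := hT _ hmem
    have h1 : x ∈ R y ↔ x ∈ R y' := by
      have e2 : x ∈ R y ∩ T ↔ x ∈ R y' ∩ T := by
        simp only at hg
        rw [hg]
      simpa [hxT] using e2
    simp only [D, mem_union, mem_sdiff] at hxD
    tauto

/-- two families at once -/
theorem two_families (L : Finset α) (m : ℕ) (R R' : ℕ → Finset α) (d Q t : ℕ)
    (hRL : ∀ y, R y ⊆ L) (hRL' : ∀ y, R' y ⊆ L)
    (hA : ∀ U ⊆ L, (∀ S ⊆ U, ∃ y ≤ m, ∀ x ∈ U, (x ∈ R y ↔ x ∈ S)) → U.card ≤ d)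
    (hA' : ∀ U ⊆ L, (∀ S ⊆ U, ∃ y ≤ m, ∀ x ∈ U, (x ∈ R' y ↔ x ∈ S)) → U.card ≤ d)
    (hL : 0 < L.card) (hQ : 1 ≤ Q) (ht : (m + 1) ^ 2 < 2 ^ t)
    (hm : (Q * t + 1) ^ (2 * d) ≤ m) :
    ∃ a b : ℕ, a < b ∧ b ≤ m ∧ Q * (R a \ R b).card ≤ L.card ∧
      Q * (R' a \ R' b).card ≤ L.card := by
  classical
  set M := range (m + 1) with hM
  have hMc : M.card = m + 1 := card_range _
  have hconv : ∀ (F : ℕ → Finset α) (U : Finset α),
      (∀ S ⊆ U, ∃ y ∈ M, ∀ x ∈ U, (x ∈ F y ↔ x ∈ S)) →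
      (∀ S ⊆ U, ∃ y ≤ m, ∀ x ∈ U, (x ∈ F y ↔ x ∈ S)) := by
    intro F U h S hS
    obtain ⟨y, hy, hy'⟩ := h S hS
    rw [hM, mem_range] at hy
    exact ⟨y, by omega, hy'⟩
  obtain ⟨g, hg, hgc⟩ := classes L M R d Q t hRL (fun U hU h => hA U hU (hconv R U h)) hL hQ
    (by rw [hMc]; exact ht)
  obtain ⟨g', hg', hgc'⟩ := classes L M R' d Q t hRL' (fun U hU h => hA' U hU (hconv R' U h)) hL hQ
    (by rw [hMc]; exact ht)
  have hcard : ((M.image g) ×ˢ (M.image g')).card < M.card := by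
    rw [card_product, hMc]
    calc (M.image g).card * (M.image g').card ≤ (Q * t + 1) ^ d * (Q * t + 1) ^ d :=
          Nat.mul_le_mul hg hg'
      _ = (Q * t + 1) ^ (2 * d) := by rw [← pow_add]; congr 1; ring
      _ < m + 1 := by omega
  obtain ⟨x, hx, y, hy, hxy, hf⟩ := exists_ne_map_eq_of_card_lt_of_maps_to hcard
    (f := fun z => (g z, g' z)) (fun z hz => by
      simp only [coe_product, Set.mem_prod, mem_coe]
      exact ⟨mem_image_of_mem _ hz, mem_image_of_mem _ hz⟩)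
  simp only [Prod.mk.injEq] at hf
  have hx' : x ≤ m := by rw [hM, mem_range] at hx; omega
  have hy' : y ≤ m := by rw [hM, mem_range] at hy; omega
  rcases lt_or_gt_of_ne hxy with h | h
  · exact ⟨x, y, h, hy', hgc x hx y hy hf.1, hgc' x hx y hy hf.2⟩
  · exact ⟨y, x, h, hx', hgc y hy x hx hf.1.symm, hgc' y hy x hx hf.2.symm⟩

end N326.GS
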