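import Pool.Agent.N326.GS.F

namespace N326.GS

open Finset

/-- The finite set `T ⊆ [-N, N]²` is shattered by the translates of `A` by `t v`, `0 ≤ t ≤ N`. -/
def ShiftShattered (A : Set (ℤ × ℤ)) (v : ℤ × ℤ) (N : ℕ) (T : Finset (ℤ × ℤ)) : Prop :=
  (∀ p ∈ T, |p.1| ≤ (N : ℤ) ∧ |p.2| ≤ (N : ℤ)) ∧
    ∀ S ⊆ T, ∃ t : ℕ, t ≤ N ∧ ∀ p ∈ T, ((p.1 + t * v.1, p.2 + t * v.2) ∈ A ↔ p ∈ S)

/-- `A` contains a homothetic image of `[m]²`. -/
def HasGrid (A : Set (ℤ × ℤ)) (m : ℕ) : Prop :=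
  ∃ x y D : ℤ, 0 < D ∧ ∀ i j : ℕ, i < m → j < m → (x + D * i, y + D * j) ∈ A

theorem grid_core (A : Set (ℤ × ℤ)) (d N K m M t Q : ℕ) (hN : 1 ≤ N) (hK : 1 ≤ K) (hm : 1 ≤ m)
    (hQ : Q = 51 * m ^ 2 * K) (hM : (m + 1) * M ≤ N) (ht : (M + 1) ^ 2 < 2 ^ t)
    (hQM : (Q * t + 1) ^ (2 * d) ≤ M)
    (hA1 : ∀ T, ShiftShattered A (1, 0) (2 * N) T → T.card ≤ d)
    (hA2 : ∀ T, ShiftShattered A (0, 1) (2 * N) T → T.card ≤ d)
    (hno : ¬ HasGrid A m) : K * (boxSet A N).ncard < N ^ 2 := by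
  classical
  by_contra hcon
  push Not at hcon
  have hMN : M + m * M ≤ N := by
    have : (m + 1) * M = M + m * M := by ring
    omega
  have hMz : (M : ℤ) + m * M ≤ N := by exact_mod_cast hMN
  have hmM0 : (0 : ℤ) ≤ (m : ℤ) * M := by positivity
  set L : Finset (ℤ × ℤ) := Icc (-(2 * N : ℤ)) (2 * N) ×ˢ Icc (-(2 * N : ℤ)) (2 * N) with hL
  have hLc : L.card = (4 * N + 1) ^ 2 := by
    rw [hL, card_product, Int.card_Icc]
    have : ((2 * N : ℤ) + 1 - -(2 * N)).toNat = 4 * N + 1 := by omega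
    rw [this]; ring
  have hmemL : ∀ p : ℤ × ℤ, p ∈ L ↔ |p.1| ≤ (2 * N : ℤ) ∧ |p.2| ≤ (2 * N : ℤ) := by
    intro p
    rw [hL, mem_product, mem_Icc, mem_Icc, abs_le, abs_le]
  let R : ℕ → Finset (ℤ × ℤ) := fun s => L.filter fun p => (p.1 + s, p.2) ∈ A
  let R' : ℕ → Finset (ℤ × ℤ) := fun s => L.filter fun p => (p.1, p.2 + s) ∈ A
  have hQ1 : 1 ≤ Q := by
    rw [hQ]
    have : 0 < 51 * m ^ 2 * K := by positivity
    omega
  have h1 : ∀ U ⊆ L, (∀ S ⊆ U, ∃ y ≤ M, ∀ x ∈ U, (x ∈ R y ↔ x ∈ S)) → U.card ≤ d := by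
    intro U hU h
    refine hA1 U ⟨fun p hp => ?_, fun S hS => ?_⟩
    · have := (hmemL p).mp (hU hp)
      push_cast
      exact this
    · obtain ⟨y, hy, hy'⟩ := h S hS
      refine ⟨y, by omega, fun p hp => ?_⟩
      rw [← hy' p hp]
      simp only [R, mem_filter, mul_one, mul_zero, add_zero]
      exact ⟨fun h => ⟨hU hp, h⟩, fun h => h.2⟩
  have h2 : ∀ U ⊆ L, (∀ S ⊆ U, ∃ y ≤ M, ∀ x ∈ U, (x ∈ R' y ↔ x ∈ S)) → U.card ≤ d := by
    intro U hU h
    refine hA2 U ⟨fun p hp => ?_, fun S hS => ?_⟩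
    · have := (hmemL p).mp (hU hp)
      push_cast
      exact this
    · obtain ⟨y, hy, hy'⟩ := h S hS
      refine ⟨y, by omega, fun p hp => ?_⟩
      rw [← hy' p hp]
      simp only [R', mem_filter, mul_one, mul_zero, add_zero]
      exact ⟨fun h => ⟨hU hp, h⟩, fun h => h.2⟩
  obtain ⟨a, b, hab, hbM, hRa, hRa'⟩ := two_families L M R R' d Q t
    (fun y => filter_subset _ _) (fun y => filter_subset _ _) h1 h2
    (by rw [hLc]; positivity) hQ1 ht hQM
  set D : ℤ := (b : ℤ) - a with hD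
  have hDpos : 0 < D := by omega
  have hDM : D ≤ M := by omega
  have haM : (a : ℤ) ≤ M := by omega
  -- the window
  set W : Finset (ℤ × ℤ) := Icc (-(N : ℤ)) (N + m * M) ×ˢ Icc (-(N : ℤ)) (N + m * M) with hW
  set B1 := W.filter (fun q => q ∈ A ∧ (q.1 + D, q.2) ∉ A) with hB1
  set B2 := W.filter (fun q => q ∈ A ∧ (q.1, q.2 + D) ∉ A) with hB2
  have hB1c : B1.card ≤ (R a \ R b).card := by
    refine card_le_card_of_injOn (fun q => (q.1 - a, q.2)) ?_ ?_
    · intro q hq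
      obtain ⟨hqW, hqA, hqD⟩ := mem_filter.mp (mem_coe.mp hq)
      rw [hW, mem_product, mem_Icc, mem_Icc] at hqW
      rw [mem_coe, mem_sdiff]
      constructor
      · rw [mem_filter, hmemL, abs_le, abs_le]
        refine ⟨⟨⟨?_, ?_⟩, ?_, ?_⟩, ?_⟩ <;> try (simp only; omega)
        simp only [sub_add_cancel]
        exact hqA
      · intro h
        have h' := (mem_filter.mp h).2
        simp only at h'
        rw [show q.1 - a + b = q.1 + D by rw [hD]; ring] at h'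
        exact hqD h'
    · intro q _ q' _ h
      simp only [Prod.mk.injEq] at h
      exact Prod.ext (by omega) h.2
  have hB2c : B2.card ≤ (R' a \ R' b).card := by
    refine card_le_card_of_injOn (fun q => (q.1, q.2 - a)) ?_ ?_
    · intro q hq
      obtain ⟨hqW, hqA, hqD⟩ := mem_filter.mp (mem_coe.mp hq)
      rw [hW, mem_product, mem_Icc, mem_Icc] at hqW
      rw [mem_coe, mem_sdiff]
      constructor
      · rw [mem_filter, hmemL, abs_le, abs_le]
        refine ⟨⟨⟨?_, ?_⟩, ?_, ?_⟩, ?_⟩ <;> try (simp only; omega)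
        simp only [sub_add_cancel]
        exact hqA
      · intro h
        have h' := (mem_filter.mp h).2
        simp only at h'
        rw [show q.2 - a + b = q.2 + D by rw [hD]; ring] at h'
        exact hqD h'
    · intro q _ q' _ h
      simp only [Prod.mk.injEq] at h
      exact Prod.ext h.1 (by omega)
  set P : Finset (ℤ × ℤ) :=
    (Icc (-(N : ℤ)) N ×ˢ Icc (-(N : ℤ)) N).filter (fun p => p ∈ A) with hP
  have hPbox : (boxSet A N).ncard = P.card := by
    have : boxSet A N = (P : Set (ℤ × ℤ)) := by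
      ext p
      simp only [boxSet, Set.mem_ofPred_eq, hP, coe_filter, mem_product, mem_Icc, abs_le]
      tauto
    rw [this, Set.ncard_coe_finset]
  have hPsub : P ⊆ (range m ×ˢ range m).biUnion
      (fun ij => (B1 ∪ B2).image fun q => (q.1 - D * ij.1, q.2 - D * ij.2)) := by
    intro p hp
    by_contra hnot
    apply hno
    obtain ⟨hpW, hpA⟩ := mem_filter.mp hp
    rw [mem_product, mem_Icc, mem_Icc] at hpW
    -- every grid point in `A` has its two neighbours in `A`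
    have hstep : ∀ i j : ℕ, i < m → j < m → (p.1 + D * i, p.2 + D * j) ∈ A →
        (p.1 + D * i + D, p.2 + D * j) ∈ A ∧ (p.1 + D * i, p.2 + D * j + D) ∈ A := by
      intro i j hi hj hA
      have hDi : D * i ≤ m * M := by
        have : (i : ℤ) ≤ m := by exact_mod_cast hi.le
        nlinarith
      have hDj : D * j ≤ m * M := by
        have : (j : ℤ) ≤ m := by exact_mod_cast hj.le
        nlinarith
      have hDi0 : 0 ≤ D * i := by positivity
      have hDj0 : 0 ≤ D * j := by positivity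
      have hqW : ((p.1 + D * i, p.2 + D * j) : ℤ × ℤ) ∈ W := by
        rw [hW, mem_product, mem_Icc, mem_Icc]
        refine ⟨⟨?_, ?_⟩, ?_, ?_⟩ <;> (simp only; omega)
      by_contra hc
      apply hnot
      rw [mem_biUnion]
      refine ⟨(i, j), mem_product.mpr ⟨mem_range.mpr hi, mem_range.mpr hj⟩, ?_⟩
      rw [mem_image]
      refine ⟨(p.1 + D * i, p.2 + D * j), ?_, by simp⟩
      rw [mem_union]
      rw [not_and_or] at hc
      rcases hc with h | h
      · exact Or.inl (mem_filter.mpr ⟨hqW, hA, h⟩)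
      · exact Or.inr (mem_filter.mpr ⟨hqW, hA, h⟩)
    have hrow : ∀ i : ℕ, i < m → (p.1 + D * i, p.2) ∈ A := by
      intro i
      induction i with
      | zero => intro _; simpa using hpA
      | succ i ih =>
        intro hi
        have h := (hstep i 0 (by omega) (by omega) (by simpa using ih (by omega))).1
        simp only [Nat.cast_zero, mul_zero, add_zero] at h
        rw [show p.1 + D * ((i + 1 : ℕ) : ℤ) = p.1 + D * i + D by push_cast; ring]
        exact h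
    refine ⟨p.1, p.2, D, hDpos, fun i j hi => ?_⟩
    induction j with
    | zero => intro _; simpa using hrow i hi
    | succ j ih =>
      intro hj
      have h := (hstep i j hi (by omega) (ih (by omega))).2
      rw [show p.2 + D * ((j + 1 : ℕ) : ℤ) = p.2 + D * j + D by push_cast; ring]
      exact h
  have hPc : P.card ≤ m ^ 2 * (B1.card + B2.card) := by
    calc P.card ≤ _ := card_le_card hPsub
      _ ≤ ∑ ij ∈ range m ×ˢ range m,
          ((B1 ∪ B2).image fun q => (q.1 - D * ij.1, q.2 - D * ij.2)).card := card_biUnion_le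
      _ ≤ ∑ _ij ∈ range m ×ˢ range m, (B1.card + B2.card) :=
          sum_le_sum fun ij _ => card_image_le.trans (card_union_le _ _)
      _ = m ^ 2 * (B1.card + B2.card) := by
          rw [sum_const, card_product, card_range, smul_eq_mul]; ring
  have hQP : Q * P.card ≤ 50 * m ^ 2 * N ^ 2 := by
    calc Q * P.card ≤ Q * (m ^ 2 * (B1.card + B2.card)) := Nat.mul_le_mul_left _ hPc
      _ = m ^ 2 * (Q * B1.card + Q * B2.card) := by ring
      _ ≤ m ^ 2 * (Q * (R a \ R b).card + Q * (R' a \ R' b).card) := by gcongr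
      _ ≤ m ^ 2 * (L.card + L.card) := by gcongr
      _ = m ^ 2 * (2 * (4 * N + 1) ^ 2) := by rw [hLc]; ring
      _ ≤ m ^ 2 * (2 * (5 * N) ^ 2) := by gcongr; omega
      _ = 50 * m ^ 2 * N ^ 2 := by ring
  rw [hPbox] at hcon
  have h3 : Q * N ^ 2 ≤ 50 * m ^ 2 * K * N ^ 2 := by
    calc Q * N ^ 2 ≤ Q * (K * P.card) := Nat.mul_le_mul_left _ hcon
      _ = K * (Q * P.card) := by ring
      _ ≤ K * (50 * m ^ 2 * N ^ 2) := Nat.mul_le_mul_left _ hQP
      _ = 50 * m ^ 2 * K * N ^ 2 := by ring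
  have h4 : Q ≤ 50 * m ^ 2 * K := Nat.le_of_mul_le_mul_right h3 (by positivity)
  rw [hQ] at h4
  have h5 : 0 < m ^ 2 * K := by positivity
  have h6 : 51 * m ^ 2 * K = 50 * m ^ 2 * K + m ^ 2 * K := by ring
  omega

/-- explicit power saving -/
theorem grid_power (A : Set (ℤ × ℤ)) (d N K m : ℕ) (hK : 1 ≤ K) (hm : 1 ≤ m)
    (hbig : (m + 1) * (103 * m ^ 2 * K * (Nat.log 2 N + 1)) ^ (2 * d) ≤ N)
    (hA1 : ∀ T, ShiftShattered A (1, 0) (2 * N) T → T.card ≤ d)
    (hA2 : ∀ T, ShiftShattered A (0, 1) (2 * N) T → T.card ≤ d)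
    (hno : ¬ HasGrid A m) : K * (boxSet A N).ncard < N ^ 2 := by
  set l := Nat.log 2 N with hl
  have hpos : 0 < 103 * m ^ 2 * K * (l + 1) := by positivity
  have hN : 1 ≤ N := by
    have : 0 < (m + 1) * (103 * m ^ 2 * K * (l + 1)) ^ (2 * d) := by positivity
    omega
  have hlt : N < 2 ^ (l + 1) := Nat.lt_pow_succ_log_self (by norm_num) N
  set M := (103 * m ^ 2 * K * (l + 1)) ^ (2 * d) with hM
  have hM1 : 1 ≤ M := Nat.one_le_pow _ _ hpos
  have hMN : M + 1 ≤ N := by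
    have : 2 * M ≤ (m + 1) * M := Nat.mul_le_mul_right _ (by omega)
    omega
  refine grid_core A d N K m M (2 * (l + 1)) (51 * m ^ 2 * K) hN hK hm rfl hbig ?_ ?_ hA1 hA2 hno
  · rw [mul_comm 2 (l + 1), pow_mul]
    exact Nat.pow_lt_pow_left (by omega) (by norm_num)
  · rw [hM]
    refine Nat.pow_le_pow_left ?_ _
    have h1 : 0 < m ^ 2 * K * (l + 1) := by positivity
    calc 51 * m ^ 2 * K * (2 * (l + 1)) + 1 = 102 * (m ^ 2 * K * (l + 1)) + 1 := by ring
      _ ≤ 103 * (m ^ 2 * K * (l + 1)) := by omega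
      _ = 103 * m ^ 2 * K * (l + 1) := by ring

theorem dl_bound (j d : ℕ) (hj : 512 ≤ j)
    (hd : (d : ℝ) ≤ Real.log (2 ^ j) / (100 * Real.log (Real.log (2 ^ j)))) :
    25 * (d * (Nat.log 2 j + 1)) ≤ j := by
  have hjr : (512 : ℝ) ≤ j := by exact_mod_cast hj
  set X := Real.log (2 ^ j) with hX
  have hXe : X = j * Real.log 2 := by rw [hX, Real.log_pow]
  have hl2 : 0.69 < Real.log 2 := by linarith [Real.log_two_gt_d9]
  have hX300 : 300 ≤ X := by rw [hXe]; nlinarith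
  have hlogX : 1 ≤ Real.log X := by
    rw [Real.le_log_iff_exp_le (by linarith)]
    have := Real.exp_one_lt_d9
    linarith
  have hdX : 100 * (d * Real.log X) ≤ X := by
    rw [le_div_iff₀ (by positivity)] at hd
    linarith
  have hd0 : (0 : ℝ) ≤ d := Nat.cast_nonneg d
  set l := Nat.log 2 j with hl
  have hlj : 2 ^ l ≤ j := Nat.pow_log_le_self 2 (by omega)
  have hllog : (l : ℝ) * Real.log 2 ≤ Real.log j := by
    rw [← Real.log_pow]
    refine Real.log_le_log (by positivity) ?_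
    exact_mod_cast hlj
  have hlogj : Real.log j ≤ 2 * Real.log X := by
    have : Real.log j ≤ Real.log (X ^ 2) := by
      refine Real.log_le_log (by linarith) ?_
      rw [hXe]
      have h1 : (0.69 : ℝ) ^ 2 ≤ Real.log 2 ^ 2 := by gcongr
      have h2 : (j : ℝ) ≤ j ^ 2 * 0.69 ^ 2 := by nlinarith
      calc (j : ℝ) ≤ j ^ 2 * 0.69 ^ 2 := h2
        _ ≤ j ^ 2 * Real.log 2 ^ 2 := by gcongr
        _ = (j * Real.log 2) ^ 2 := by ring
    rwa [Real.log_pow] at this
  have hl2log : Real.log 2 ≤ Real.log j := Real.log_le_log (by norm_num) (by linarith)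
  have h1 : ((l : ℝ) + 1) * Real.log 2 ≤ 4 * Real.log X := by nlinarith
  have h2 : 25 * ((d : ℝ) * ((l + 1) * Real.log 2)) ≤ j * Real.log 2 := by
    calc 25 * ((d : ℝ) * ((l + 1) * Real.log 2)) ≤ 25 * (d * (4 * Real.log X)) := by gcongr
      _ = 100 * (d * Real.log X) := by ring
      _ ≤ X := hdX
      _ = j * Real.log 2 := hXe
  have h3 : 25 * ((d : ℝ) * (l + 1)) ≤ j := by
    have h4 : (25 * ((d : ℝ) * (l + 1))) * Real.log 2 ≤ j * Real.log 2 := by linarith
    exact le_of_mul_le_mul_right h4 (by linarith)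
  exact_mod_cast h3

theorem numeric2 (m : ℕ) : ∃ J : ℕ, ∀ j, J ≤ j → ∀ d : ℕ,
    25 * (d * (Nat.log 2 (j + 1) + 1)) ≤ j + 1 →
    (m + 1) * (103 * m ^ 2 * (j + 1) ^ 2 * (j + 1)) ^ (2 * d) ≤ 2 ^ j := by
  set b := 103 * m ^ 2 + m + 1 with hb
  have hb1 : 103 * m ^ 2 ≤ 2 ^ b := by
    have : b < 2 ^ b := Nat.lt_two_pow_self
    omega
  have hb2 : m + 1 ≤ 2 ^ b := by
    have : b < 2 ^ b := Nat.lt_two_pow_self
    omega
  refine ⟨2 ^ (2 * b), fun j hj d hd => ?_⟩
  set l := Nat.log 2 (j + 1) with hl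
  have hbj : 2 * b + 1 ≤ j := by
    have : 2 * b < 2 ^ (2 * b) := Nat.lt_two_pow_self
    omega
  have hlb : 2 * b ≤ l := Nat.le_log_of_pow_le (by norm_num) (by omega)
  have hjl : j + 1 ≤ 2 ^ (l + 1) := (Nat.lt_pow_succ_log_self (by norm_num) (j + 1)).le
  have hdb : d * (2 * b) ≤ d * (l + 1) := Nat.mul_le_mul_left _ (by omega)
  calc (m + 1) * (103 * m ^ 2 * (j + 1) ^ 2 * (j + 1)) ^ (2 * d)
      ≤ 2 ^ b * (2 ^ b * (2 ^ (l + 1)) ^ 2 * 2 ^ (l + 1)) ^ (2 * d) := by gcongr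
    _ = 2 ^ (b + (b + (l + 1) * 2 + (l + 1)) * (2 * d)) := by
        rw [← pow_mul 2 (l + 1) 2, ← pow_add, ← pow_add, ← pow_mul, ← pow_add]
    _ ≤ 2 ^ j := by
        refine Nat.pow_le_pow_right (by norm_num) ?_
        have e : b + (b + (l + 1) * 2 + (l + 1)) * (2 * d) =
            b + d * (2 * b) + 6 * (d * (l + 1)) := by ring
        rw [e]
        omega

/-- Main theorem for grids. -/
theorem grid_main (A : Set (ℤ × ℤ)) (N₀ : ℕ)
    (hA : ∀ N, N₀ ≤ N → ∀ T : Finset (ℤ × ℤ),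
      ShiftShattered A (1, 0) N T ∨ ShiftShattered A (0, 1) N T →
      (T.card : ℝ) ≤ Real.log N / (100 * Real.log (Real.log N)))
    (m : ℕ) (hno : ¬ HasGrid A m) : Summable (wt A) := by
  have hm : 1 ≤ m := by
    by_contra h
    apply hno
    exact ⟨0, 0, 1, one_pos, fun i j hi => by omega⟩
  obtain ⟨J, hJ⟩ := numeric2 m
  refine summable_of A (max N₀ (max 512 J)) fun j hj => ?_
  have hj1 : N₀ ≤ j := (le_max_left _ _).trans hj
  have hj2 : 512 ≤ j := ((le_max_left _ _).trans (le_max_right _ _)).trans hj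
  have hj3 : J ≤ j := ((le_max_right _ _).trans (le_max_right _ _)).trans hj
  have hjN : N₀ ≤ 2 * 2 ^ j := by
    have : j < 2 ^ j := Nat.lt_two_pow_self
    omega
  set d := ⌊Real.log (2 ^ (j + 1)) / (100 * Real.log (Real.log (2 ^ (j + 1))))⌋₊ with hd
  have hpos : 0 ≤ Real.log (2 ^ (j + 1)) / (100 * Real.log (Real.log (2 ^ (j + 1)))) := by
    have hjr : (512 : ℝ) ≤ j := by exact_mod_cast hj2
    have hXe : Real.log (2 ^ (j + 1)) = (j + 1) * Real.log 2 := by
      rw [Real.log_pow]; push_cast; ring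
    have hl2 : 0.69 < Real.log 2 := by linarith [Real.log_two_gt_d9]
    have h1 : 1 ≤ Real.log (2 ^ (j + 1)) := by rw [hXe]; nlinarith
    have h2 : 0 ≤ Real.log (Real.log (2 ^ (j + 1))) := Real.log_nonneg h1
    positivity
  have hdl := dl_bound (j + 1) d (by omega) (Nat.floor_le hpos)
  have hT : ∀ T : Finset (ℤ × ℤ),
      ShiftShattered A (1, 0) (2 * 2 ^ j) T ∨ ShiftShattered A (0, 1) (2 * 2 ^ j) T →
      T.card ≤ d := by
    intro T hT
    refine Nat.le_floor ?_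
    have := hA (2 * 2 ^ j) hjN T hT
    have e : ((2 * 2 ^ j : ℕ) : ℝ) = 2 ^ (j + 1) := by push_cast; ring
    rw [e] at this
    exact this
  refine grid_power A d (2 ^ j) ((j + 1) ^ 2) m (Nat.one_le_pow _ _ (by omega)) hm ?_
    (fun T h => hT T (Or.inl h)) (fun T h => hT T (Or.inr h)) hno
  rw [Nat.log_pow (by norm_num)]
  exact hJ j hj3 d hdl

end N326.GS
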